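import Mathlib

/-!
Conflict-free colourings, dual form.  Points `V`, blocks `B`, `s b` is the set of points of the
block `b`.  Definitions used by all files of the folder `Helper29_CF`.
-/

namespace Pool.Agent.Helper29_CF

open Finset

section Basic

variable {V B : Type} [DecidableEq V] [DecidableEq B]

/-- number of blocks of `F` through `x` -/
def deg (s : B → Finset V) (F : Finset B) (x : V) : ℕ := (F.filter (fun b => x ∈ s b)).card

/-- number of blocks of `C` through `x` whose colour is `κ` -/
def cdeg (s : B → Finset V) (C : Finset B) (c : B → Bool) (κ : Bool) (x : V) : ℕ :=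
  (C.filter (fun b => x ∈ s b ∧ c b = κ)).card

/-- `x` is satisfied by the coloured family `C`: some colour occurs exactly once at `x` -/
def Sat (s : B → Finset V) (C : Finset B) (c : B → Bool) (x : V) : Prop :=
  ∃ κ : Bool, cdeg s C c κ x = 1

/-- every block of `F` is contained in `W` or disjoint from `W` -/
def Closed (s : B → Finset V) (F : Finset B) (W : Finset V) : Prop :=
  ∀ b ∈ F, s b ⊆ W ∨ Disjoint (s b) W

/-- `W` is a connected component of `F` -/
def IsComp (s : B → Finset V) (F : Finset B) (W : Finset V) : Prop :=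
  W.Nonempty ∧ Closed s F W ∧ ∀ W' ⊆ W, W'.Nonempty → Closed s F W' → W' = W

/-- the points of `X` of `F`-degree at least two -/
def nodes (s : B → Finset V) (F : Finset B) (X : Finset V) : Finset V :=
  X.filter (fun x => 2 ≤ deg s F x)

/-- the blocks of `F` contained in `W` -/
def inside (s : B → Finset V) (F : Finset B) (W : Finset V) : Finset B :=
  F.filter (fun b => s b ⊆ W)

/-- `W` is an EO component of `F`: a component in which all degrees are 1, 2 or 4, every block
has exactly two nodes, and the number of nodes is odd -/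
def EO (s : B → Finset V) (F : Finset B) (W : Finset V) : Prop :=
  IsComp s F W ∧ (∀ x ∈ W, deg s F x = 1 ∨ deg s F x = 2 ∨ deg s F x = 4) ∧
    (∀ b ∈ F, s b ⊆ W → (nodes s F (s b)).card = 2) ∧ Odd (nodes s F W).card

/-- admissible families: covers contained in `K` with all degrees at most `cap` -/
def Adm (s : B → Finset V) (K : Finset B) (cap : ℕ) (F : Finset B) : Prop :=
  F ⊆ K ∧ ∀ x, 1 ≤ deg s F x ∧ deg s F x ≤ cap

/-- the standing assumptions on the system of blocks `K` -/
structure Sys (s : B → Finset V) (K : Finset B) (cap : ℕ) : Prop where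
  ne : ∀ b ∈ K, (s b).Nonempty
  le3 : ∀ b ∈ K, (s b).card ≤ 3
  cap5 : cap ≤ 5
  hcap : cap = 3 ∨ ∀ x, deg s K x ≤ cap

/-- `F` and `F'` have the same blocks except possibly blocks contained in `Q` -/
def SameOff (s : B → Finset V) (F F' : Finset B) (Q : Finset V) : Prop :=
  ∀ b, ¬ s b ⊆ Q → (b ∈ F ↔ b ∈ F')

/-- a Pasch configuration: four blocks on six points, every point in exactly two of them,
any two of them meeting in exactly one point -/
def Pasch (s : B → Finset V) (L : Finset B) : Prop :=
  L.card = 4 ∧ (∀ b ∈ L, (s b).card = 3) ∧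
    (∀ b ∈ L, ∀ b' ∈ L, b ≠ b' → (s b ∩ s b').card = 1) ∧
    (∀ x, deg s L x = 0 ∨ deg s L x = 2)

/-- the points covered by the family `L` -/
def pts (s : B → Finset V) (L : Finset B) : Finset V := L.biUnion s

/-- every Pasch inside `K` has two distinct points lying in blocks of `K` outside the Pasch -/
def NoLeaf (s : B → Finset V) (K : Finset B) : Prop :=
  ∀ L ⊆ K, Pasch s L → ∃ x ∈ pts s L, ∃ y ∈ pts s L, x ≠ y ∧
    (∃ b ∈ K, b ∉ L ∧ x ∈ s b) ∧ (∃ b ∈ K, b ∉ L ∧ y ∈ s b)

/-- first kind of certificate of a token `Q`: a parallel unused block -/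
def PCert (s : B → Finset V) (K F : Finset B) (Q : Finset V) : Prop :=
  ∃ f ∈ F, s f ⊆ Q ∧ ∃ g ∈ K, g ∉ F ∧ s g = s f

/-- second kind: a block through the two nodes of a block of `Q` and one point outside `Q` -/
def HCert (s : B → Finset V) (K : Finset B) (cap : ℕ) (F : Finset B) (Q : Finset V) : Prop :=
  ∃ f ∈ F, s f ⊆ Q ∧ ∃ g ∈ K, ∃ p, p ∉ Q ∧ s g = insert p (nodes s F (s f)) ∧
    (cap = 3 → deg s F p ≠ 3)

/-- third kind (only used if `cap = 3`): at least eight pairs (private point `x` of `Q`, block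
through `x` containing a point of degree three) -/
def WCert (s : B → Finset V) (K F : Finset B) (Q : Finset V) : Prop :=
  8 ≤ (((Q.filter (fun x => deg s F x = 1)) ×ˢ K).filter
    (fun z => z.1 ∈ s z.2 ∧ ∃ w ∈ s z.2, deg s F w = 3)).card

/-- a certificate of the token `Q` -/
def Cert (s : B → Finset V) (K : Finset B) (cap : ℕ) (F : Finset B) (Q : Finset V) : Prop :=
  PCert s K F Q ∨ HCert s K cap F Q ∨ (cap = 3 ∧ WCert s K F Q)

/-- the token `Q` can be completed if an outer block `g` gets the colour `κ` (`κ` arbitrary):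
there is a family `L` of blocks of `F` inside `Q` such that all points of `Q` become satisfied,
or get degree 5 -/
def CanF (s : B → Finset V) (F : Finset B) (Q : Finset V) (g : B) : Prop :=
  ∀ κ : Bool, ∃ L ⊆ F, (∀ b ∈ L, s b ⊆ Q) ∧ ∃ c : B → Bool, c g = κ ∧
    ∀ y ∈ Q, Sat s (insert g L) c y ∨ deg s (insert g L) y = 5

/-- abstract form of the previous property used in the assembly -/
def CanC (s : B → Finset V) (K : Finset B) (D : ℕ) (Q : Finset V) (g : B) : Prop :=
  ∀ κ : Bool, ∃ L ⊆ K, (∀ b ∈ L, s b ⊆ Q) ∧ g ∉ L ∧ ∃ c : B → Bool, c g = κ ∧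
    ∀ y ∈ Q, Sat s (insert g L) c y ∨ deg s (insert g L) y = D

/-- the points covered by a family of Paschs -/
def famPts (s : B → Finset V) (𝒞 : Finset (Finset B)) : Finset V := 𝒞.biUnion (pts s)

/-- at most one block of `K` touches the points of the family `𝒞` without being a line of a
member of the family, and this block meets these points in exactly one point -/
def ClosedFam (s : B → Finset V) (K : Finset B) (𝒞 : Finset (Finset B)) : Prop :=
  ∃ e : Option B, ∀ b ∈ K, ¬ Disjoint (s b) (famPts s 𝒞) →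
    (∃ L ∈ 𝒞, b ∈ L) ∨ (some b = e ∧ (s b ∩ famPts s 𝒞).card = 1)

/-- bad Pasch of the whole system: no other block meets its points in two or more points, and
no other Pasch shares a block with it -/
def BadP (s : B → Finset V) (L : Finset B) : Prop :=
  Pasch s L ∧ (∀ b, b ∉ L → (s b ∩ pts s L).card ≤ 1) ∧
    (∀ L', Pasch s L' → L' ≠ L → Disjoint L L')

/-- `y` is satisfied after one more block of colour `κ` through `y` is added -/
def SatP (s : B → Finset V) (L : Finset B) (c : B → Bool) (κ : Bool) (y : V) : Prop :=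
  cdeg s L c κ y = 0 ∨ cdeg s L c (!κ) y = 1

/-- the set `W` can be completed by blocks of `Λ` if an outer block of colour `κ` contains
exactly the points `Y` of `W` -/
def Compl (s : B → Finset V) (Λ : Finset B) (W Y : Finset V) (κ : Bool) : Prop :=
  ∃ L ⊆ Λ, ∃ c : B → Bool, ∀ y ∈ W, (y ∉ Y → Sat s L c y) ∧ (y ∈ Y → SatP s L c κ y)

/-- the set `W` minus the point `x` can be completed by blocks of `Λ` avoiding `x` -/
def NearP (s : B → Finset V) (Λ : Finset B) (W : Finset V) (x : V) : Prop :=
  ∃ L ⊆ Λ, ∃ c : B → Bool, (∀ b ∈ L, x ∉ s b) ∧ ∀ y ∈ W, y ≠ x → Sat s L c y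

/-- the same with one more block of colour `κ` at the point `x'` -/
def NearP2 (s : B → Finset V) (Λ : Finset B) (W : Finset V) (x x' : V) (κ : Bool) : Prop :=
  ∃ L ⊆ Λ, ∃ c : B → Bool, (∀ b ∈ L, x ∉ s b) ∧ SatP s L c κ x' ∧
    ∀ y ∈ W, y ≠ x → y ≠ x' → Sat s L c y

/-- robust completion properties of a set `W` with line set `Λ` -/
structure Robust (s : B → Finset V) (Λ : Finset B) (W : Finset V) : Prop where
  near : ∀ x ∈ W, NearP s Λ W x
  near2 : ∀ x ∈ W, ∀ x' ∈ W, x ≠ x' → ∀ κ, NearP2 s Λ W x x' κ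
  compl : ∀ Y ⊆ W, Y.Nonempty → Y.card ≤ 3 → ∀ κ, Compl s Λ W Y κ

/-- clusters of glued Paschs -/
structure IsCluster (s : B → Finset V) (K : Finset B) (W : Finset V)
    (𝒞 : Finset (Finset B)) : Prop where
  ne : 𝒞.Nonempty
  pasch : ∀ L ∈ 𝒞, Pasch s L ∧ L ⊆ K
  eq : W = famPts s 𝒞
  closed : ClosedFam s K 𝒞
  one : ∀ L ∈ 𝒞, ∀ b ∈ K, b ∉ L → (s b ∩ pts s L).card ≤ 1
  iso : ∀ L ∈ 𝒞, ∀ L', Pasch s L' → L' ⊆ K → L' ≠ L → Disjoint L L'
  rob : Robust s (𝒞.biUnion id) W

end Basic

section Fin

variable {V B : Type} [Fintype V] [DecidableEq V] [DecidableEq B]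

open Classical in
/-- the set of EO components -/
noncomputable def eos (s : B → Finset V) (F : Finset B) : Finset (Finset V) :=
  (univ : Finset (Finset V)).filter (fun W => EO s F W)

/-- the number of EO components -/
noncomputable def numEO (s : B → Finset V) (F : Finset B) : ℕ := (eos s F).card

/-- optimal covers: minimum size among admissible families, then fewest EO components -/
structure Good (s : B → Finset V) (K : Finset B) (cap : ℕ) (F : Finset B) : Prop where
  adm : Adm s K cap F
  min : ∀ F', Adm s K cap F' → F.card ≤ F'.card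
  eo : ∀ F', Adm s K cap F' → F'.card = F.card → numEO s F ≤ numEO s F'

/-- the exit `g` at the private point `p` leads into the component `R` -/
def MCase (s : B → Finset V) (K : Finset B) (cap : ℕ) (F : Finset B) (Q : Finset V) (f : B)
    (p : V) (g : B) (u v : V) (R : Finset V) : Prop :=
  u ≠ v ∧ u ≠ p ∧ v ≠ p ∧ s g = {p, u, v} ∧ IsComp s F R ∧ ¬ EO s F R ∧ u ∈ R ∧ v ∈ R ∧
    Good s K cap (insert g (F.erase f)) ∧
    ∀ W, EO s (insert g (F.erase f)) W ↔ (EO s F W ∧ W ≠ Q) ∨ W = insert p R

/-- there is an exit at a private point outside `Z` that leads into another component -/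
def MOpt (s : B → Finset V) (K : Finset B) (cap : ℕ) (F : Finset B) (Q Z : Finset V) : Prop :=
  ∃ f ∈ F, s f ⊆ Q ∧ ∃ p ∈ s f, deg s F p = 1 ∧ p ∉ Z ∧ ∃ g ∈ K, g ∉ F ∧
    ∃ u v R, MCase s K cap F Q f p g u v R

/-- what is available at a token, after a change inside `Q` -/
def OptConcl (s : B → Finset V) (K : Finset B) (cap : ℕ) (F : Finset B) (Q Z : Finset V) :
    Prop :=
  ∃ F', SameOff s F F' Q ∧ Good s K cap F' ∧ EO s F' Q ∧
    (PCert s K F' Q ∨ (cap = 3 ∧ WCert s K F' Q) ∨ MOpt s K cap F' Q Z)

end Fin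

end Pool.Agent.Helper29_CF
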