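import Mathlib
import Pool.Agent.Helper29_CF.Defs

/-!
Statements of all modules of the squad `cf` (problem MP_dcfb8f_co).  Proofs: PLAN_CF.md.
-/

namespace Pool.Agent.Helper29_CF

open Finset

/-! ### Linear algebra over the field with two elements -/

/-- FRED -/
def FredStmt : Prop :=
  ∀ {V B : Type} [Fintype V] [DecidableEq V] [Fintype B] [DecidableEq B]
    (I : B → Finset V) (N : Finset V) (t : V → ZMod 2),
    (∀ S ⊆ N, (∀ b, Even (S ∩ I b).card) → ∑ x ∈ S, t x = 0) →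
    ∃ c : B → ZMod 2, ∀ x ∈ N, ∑ b ∈ univ.filter (fun b => x ∈ I b), c b = t x

/-- COLA: choice of the free block at the points of degree three.  `φ x` is the free block at
`x`; the incidences are those of the even points and the non-free ones of the points of degree
three; a set with even intersection with all incidence sets contains no point of degree three. -/
def ColAStmt : Prop :=
  ∀ {V B : Type} [Fintype V] [DecidableEq V] [Fintype B] [DecidableEq B] [Nonempty B]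
    (s : B → Finset V) (F : Finset B) (N : Finset V),
    (∀ b ∈ F, (s b ∩ N.filter (fun x => deg s F x = 2 ∨ deg s F x = 3 ∨ deg s F x = 4)).card ≤ 2) →
    ∃ φ : V → B, (∀ x ∈ N, deg s F x = 3 → φ x ∈ F ∧ x ∈ s (φ x)) ∧
      ∀ S ⊆ N.filter (fun x => deg s F x = 2 ∨ deg s F x = 3 ∨ deg s F x = 4),
        (∀ b ∈ F, Even (S.filter (fun x => x ∈ s b ∧ ¬ (deg s F x = 3 ∧ φ x = b))).card) →
        ∀ x ∈ S, deg s F x ≠ 3

/-- COLB: an odd set of even points meeting every block in zero or two points gives an EO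
component -/
def ColBStmt : Prop :=
  ∀ {V B : Type} [Fintype V] [DecidableEq V] [Fintype B] [DecidableEq B]
    (s : B → Finset V) (F : Finset B) (N : Finset V),
    (∀ b ∈ F, (s b).Nonempty) → Closed s F N →
    (∀ b ∈ F, s b ⊆ N → (nodes s F (s b)).card ≤ 2) →
    ∀ S ⊆ N, (∀ x ∈ S, deg s F x = 2 ∨ deg s F x = 4) → (∀ b ∈ F, Even (S ∩ s b).card) →
      Odd S.card → ∃ W ⊆ N, EO s F W

/-- COL: colouring of the part without EO components -/
def ColStmt : Prop :=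
  ∀ {V B : Type} [Fintype V] [DecidableEq V] [Fintype B] [DecidableEq B]
    (s : B → Finset V) (F : Finset B) (N : Finset V),
    (∀ b ∈ F, (s b).Nonempty) → Closed s F N →
    (∀ b ∈ F, s b ⊆ N → (nodes s F (s b)).card ≤ 2) → (∀ W ⊆ N, ¬ EO s F W) →
    ∃ c : B → Bool, ∀ x ∈ N, 1 ≤ deg s F x → deg s F x ≤ 4 → Sat s F c x

/-- TJ: prescribed parities on an EO component -/
def TJStmt : Prop :=
  ∀ {V B : Type} [Fintype V] [DecidableEq V] [Fintype B] [DecidableEq B]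
    (s : B → Finset V) (F : Finset B) (Q : Finset V), (∀ b ∈ F, (s b).Nonempty) → EO s F Q →
    ∀ t : V → ZMod 2, ∑ x ∈ nodes s F Q, t x = 0 → ∀ f ∈ F, s f ⊆ Q → ∀ κ : Bool,
      ∃ c : B → Bool, c f = κ ∧
        ∀ x ∈ nodes s F Q, ((cdeg s F c true x : ℕ) : ZMod 2) = t x

/-! ### Components -/

/-- BRIDGE: an EO component stays connected if one block and its private point are removed -/
def BridgeStmt : Prop :=
  ∀ {V B : Type} [Fintype V] [DecidableEq V] [Fintype B] [DecidableEq B]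
    (s : B → Finset V) (F : Finset B) (Q : Finset V) (f : B) (p : V),
    (∀ b ∈ F, (s b).Nonempty ∧ (s b).card ≤ 3) → EO s F Q → f ∈ F → s f ⊆ Q → p ∈ s f →
    deg s F p = 1 → IsComp s (F.erase f) (Q.erase p)

/-- NOEO: it is then no longer EO -/
def NoEOStmt : Prop :=
  ∀ {V B : Type} [Fintype V] [DecidableEq V] [Fintype B] [DecidableEq B]
    (s : B → Finset V) (F : Finset B) (Q : Finset V) (f : B) (p : V),
    (∀ b ∈ F, (s b).Nonempty ∧ (s b).card ≤ 3) → EO s F Q → f ∈ F → s f ⊆ Q → p ∈ s f →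
    deg s F p = 1 → ∀ W ⊆ Q.erase p, ¬ EO s (F.erase f) W

/-- COMPT: completion if the outer block meets the token in one point -/
def CompTStmt : Prop :=
  ∀ {V B : Type} [Fintype V] [DecidableEq V] [Fintype B] [DecidableEq B]
    (s : B → Finset V) (F : Finset B) (Q : Finset V) (g : B),
    (∀ b ∈ F, (s b).Nonempty ∧ (s b).card ≤ 3) → EO s F Q → g ∉ F → (s g ∩ Q).card = 1 →
    CanF s F Q g

/-- COMPH: completion by a certificate of the first or second kind -/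
def CompHStmt : Prop :=
  ∀ {V B : Type} [Fintype V] [DecidableEq V] [Fintype B] [DecidableEq B]
    (s : B → Finset V) (F : Finset B) (Q : Finset V) (f g : B),
    (∀ b ∈ F, (s b).Nonempty ∧ (s b).card ≤ 3) → EO s F Q → f ∈ F → s f ⊆ Q → g ∉ F →
    (s g = s f ∨ ∃ p, p ∉ Q ∧ s g = insert p (nodes s F (s f))) → CanF s F Q g

/-- COMPW: completion if the outer block meets a pure cycle in two points, one of them private -/
def CompWStmt : Prop :=
  ∀ {V B : Type} [Fintype V] [DecidableEq V] [Fintype B] [DecidableEq B]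
    (s : B → Finset V) (F : Finset B) (Q : Finset V) (g : B) (x : V),
    (∀ b ∈ F, (s b).Nonempty ∧ (s b).card ≤ 3) → EO s F Q → (∀ y ∈ Q, deg s F y ≤ 2) →
    g ∉ F → x ∈ s g → x ∈ Q → deg s F x = 1 → (s g ∩ Q).card = 2 → CanF s F Q g

/-! ### The exchange lemma -/

/-- GOODEX: existence of optimal covers, and private points -/
def GoodExStmt : Prop :=
  ∀ {V B : Type} [Fintype V] [DecidableEq V] [Fintype B] [DecidableEq B]
    (s : B → Finset V) (K : Finset B) (cap : ℕ), Sys s K cap →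
    ((∃ F, Adm s K cap F) → ∃ F, Good s K cap F) ∧
    ∀ F, Good s K cap F → ∀ f ∈ F, ∃ p ∈ s f, deg s F p = 1

/-- SWAP -/
def SwapStmt : Prop :=
  ∀ {V B : Type} [Fintype V] [DecidableEq V] [Fintype B] [DecidableEq B]
    (s : B → Finset V) (K : Finset B) (cap : ℕ) (F : Finset B) (Q : Finset V) (f : B) (p : V)
    (g : B), Sys s K cap → Good s K cap F → EO s F Q → f ∈ F → s f ⊆ Q → p ∈ s f →
    deg s F p = 1 → g ∈ K → g ∉ F → p ∈ s g → Adm s K cap (insert g (F.erase f)) →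
    Good s K cap (insert g (F.erase f)) ∧ ∃ N, p ∈ N ∧ EO s (insert g (F.erase f)) N ∧
      ∀ W, EO s (insert g (F.erase f)) W ↔ (EO s F W ∧ W ≠ Q) ∨ W = N

/-- EXM: either the exit leads into another component, or the block `g` is inside `Q` -/
def ExMStmt : Prop :=
  ∀ {V B : Type} [Fintype V] [DecidableEq V] [Fintype B] [DecidableEq B]
    (s : B → Finset V) (K : Finset B) (cap : ℕ) (F : Finset B) (Q : Finset V) (f : B) (p : V)
    (g : B), Sys s K cap → Good s K cap F → EO s F Q → f ∈ F → s f ⊆ Q → p ∈ s f →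
    deg s F p = 1 → g ∈ K → g ∉ F → p ∈ s g → Adm s K cap (insert g (F.erase f)) →
    (∃ u v R, MCase s K cap F Q f p g u v R) ∨
      (s g ⊆ Q ∧ (s g).card = 3 ∧ Good s K cap (insert g (F.erase f)) ∧
        ∀ W, EO s (insert g (F.erase f)) W ↔ EO s F W)

/-- EXB: classification of the blocks inside `Q` -/
def ExBStmt : Prop :=
  ∀ {V B : Type} [Fintype V] [DecidableEq V] [Fintype B] [DecidableEq B]
    (s : B → Finset V) (K : Finset B) (cap : ℕ) (F : Finset B) (Q : Finset V) (f : B) (p : V)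
    (g : B), Sys s K cap → Good s K cap F → EO s F Q → f ∈ F → s f ⊆ Q → p ∈ s f →
    deg s F p = 1 → g ∈ K → g ∉ F → p ∈ s g → s g ⊆ Q →
    s g = s f ∨ Pasch s (insert g (inside s F Q)) ∨
      (∃ a ∈ s f, a ∈ s g ∧ deg s F a = 4 ∧ ∀ b ∈ s f, b ≠ a → deg s F b ≤ 2)

/-- the exchange lemma -/
def ExchStmt : Prop :=
  ∀ {V B : Type} [Fintype V] [DecidableEq V] [Fintype B] [DecidableEq B]
    (s : B → Finset V) (K : Finset B) (cap : ℕ) (F : Finset B) (Q : Finset V) (f : B) (p : V)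
    (g : B), Sys s K cap → Good s K cap F → EO s F Q → f ∈ F → s f ⊆ Q → p ∈ s f →
    deg s F p = 1 → g ∈ K → g ∉ F → p ∈ s g → Adm s K cap (insert g (F.erase f)) →
    (∃ u v R, MCase s K cap F Q f p g u v R) ∨
      (s g ⊆ Q ∧ (s g).card = 3 ∧ Good s K cap (insert g (F.erase f)) ∧
        (∀ W, EO s (insert g (F.erase f)) W ↔ EO s F W) ∧
        (s g = s f ∨ Pasch s (insert g (inside s F Q)) ∨
          (∃ a ∈ s f, a ∈ s g ∧ deg s F a = 4 ∧ ∀ b ∈ s f, b ≠ a → deg s F b ≤ 2)))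

/-- OPT7 -/
def Opt7Stmt : Prop :=
  ∀ {V B : Type} [Fintype V] [DecidableEq V] [Fintype B] [DecidableEq B]
    (s : B → Finset V) (K : Finset B), Sys s K 4 →
    (∀ x, 2 ≤ deg s K x ∧ deg s K x ≤ 4) → NoLeaf s K →
    ∀ (F : Finset B) (Q Z : Finset V), Good s K 4 F → EO s F Q → Z.card ≤ 1 →
      OptConcl s K 4 F Q Z

/-- OPT6 -/
def Opt6Stmt : Prop :=
  ∀ {V B : Type} [Fintype V] [DecidableEq V] [Fintype B] [DecidableEq B]
    (s : B → Finset V) (K : Finset B), Sys s K 5 →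
    (∀ x, 3 ≤ deg s K x ∧ deg s K x ≤ 5) →
    ∀ (F : Finset B) (Q Z : Finset V), Good s K 5 F → EO s F Q → Z.card ≤ 1 →
      OptConcl s K 5 F Q Z

/-- OPT5 -/
def Opt5Stmt : Prop :=
  ∀ {V B : Type} [Fintype V] [DecidableEq V] [Fintype B] [DecidableEq B]
    (s : B → Finset V), (∀ b, (s b).card = 3) → (∀ x, deg s univ x = 5) →
    ∀ (F : Finset B) (Q Z : Finset V), Good s univ 3 F → EO s F Q → Z.card ≤ 1 →
      OptConcl s univ 3 F Q Z

/-- PATH -/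
def PathStmt : Prop :=
  ∀ {V B : Type} [Fintype V] [DecidableEq V] [Fintype B] [DecidableEq B]
    (s : B → Finset V) (K : Finset B) (cap : ℕ), Sys s K cap →
    (∀ (F : Finset B) (Q Z : Finset V), Good s K cap F → EO s F Q → Z.card ≤ 1 →
      OptConcl s K cap F Q Z) →
    ∀ (F : Finset B) (Q : Finset V), Good s K cap F → EO s F Q →
    ∃ F' Q', Good s K cap F' ∧ EO s F' Q' ∧ Cert s K cap F' Q' ∧
      (∀ W, (EO s F' W ∧ W ≠ Q') ↔ (EO s F W ∧ W ≠ Q)) ∧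
      (∀ W, EO s F W → W ≠ Q → ∀ b, s b ⊆ W → (b ∈ F' ↔ b ∈ F)) ∧
      (cap = 3 → ∀ x, deg s F' x = 3 ↔ deg s F x = 3)

/-- TOK: an optimal cover all of whose tokens have certificates -/
def TokStmt : Prop :=
  ∀ {V B : Type} [Fintype V] [DecidableEq V] [Fintype B] [DecidableEq B]
    (s : B → Finset V) (K : Finset B) (cap : ℕ), Sys s K cap →
    (∀ (F : Finset B) (Q Z : Finset V), Good s K cap F → EO s F Q → Z.card ≤ 1 →
      OptConcl s K cap F Q Z) →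
    (∃ F, Adm s K cap F) → ∃ F, Good s K cap F ∧ ∀ Q, EO s F Q → Cert s K cap F Q

/-! ### Assembly -/

/-- ABS -/
def AbsStmt : Prop :=
  ∀ {V B : Type} [Fintype V] [DecidableEq V] [Fintype B] [DecidableEq B]
    (s : B → Finset V) (K C0 : Finset B) (c0 : B → Bool) (D : ℕ) (T : Finset (Finset V))
    (S : Finset V) (own : Finset V → B), (∀ b ∈ K, (s b).Nonempty) →
    (∀ x, deg s K x ≤ D) → C0 ⊆ K →
    (∀ Q ∈ T, ∀ Q' ∈ T, Q ≠ Q' → Disjoint Q Q') →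
    (∀ Q ∈ T, Disjoint Q S) →
    (∀ Q ∈ T, ∀ b ∈ C0, Disjoint (s b) Q) →
    (∀ x, (∀ Q ∈ T, x ∉ Q) → Sat s C0 c0 x ∨ deg s C0 x = D) →
    (∀ Q ∈ T, own Q ∈ K ∧ (s (own Q) ∩ Q).Nonempty ∧ (s (own Q) \ (Q ∪ S)).card ≤ 1) →
    (∀ Q ∈ T, ∀ Q' ∈ T, ∀ w ∈ S, w ∈ s (own Q) → w ∈ s (own Q') → own Q = own Q') →
    (∀ Q ∈ T, CanC s K D Q (own Q)) →
    (∀ Q ∈ T, ∀ g ∈ K, (s g ∩ Q).card = 1 → CanC s K D Q g) →
    ∃ C ⊆ K, ∃ c : B → Bool, (∀ x, x ∉ S → Sat s C c x ∨ deg s C x = D) ∧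
      ∀ x ∈ S, Sat s C c x ∨ deg s C x = D ∨ deg s C x = deg s C0 x + 1

/-- ASM67: common assembly of the cases without third kind of certificates -/
def Asm67Stmt : Prop :=
  ∀ {V B : Type} [Fintype V] [DecidableEq V] [Fintype B] [DecidableEq B]
    (s : B → Finset V) (K : Finset B) (cap : ℕ), Sys s K cap → cap ≠ 3 →
    (∀ (F : Finset B) (Q Z : Finset V), Good s K cap F → EO s F Q → Z.card ≤ 1 →
      OptConcl s K cap F Q Z) →
    (∃ F, Adm s K cap F) →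
    ∃ C ⊆ K, ∃ c : B → Bool, ∀ x, Sat s C c x ∨ deg s C x = 5

/-- KSTAR -/
def KStarStmt : Prop :=
  ∀ {V B : Type} [Fintype V] [DecidableEq V] [Fintype B] [DecidableEq B]
    (s : B → Finset V) (K : Finset B), (∀ b ∈ K, (s b).Nonempty ∧ (s b).card ≤ 3) →
    (∀ x, 2 ≤ deg s K x ∧ deg s K x ≤ 4) → NoLeaf s K →
    ∃ C ⊆ K, ∃ c : B → Bool, ∀ x, Sat s C c x

/-! ### Rounding -/

/-- STEP -/
def StepStmt : Prop :=
  ∀ {B : Type} [Fintype B] [DecidableEq B] (z : B → ℝ) (R : Finset (Finset B)),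
    (∀ b, 0 ≤ z b ∧ z b ≤ 1) →
    R.card < (univ.filter (fun b => z b ≠ 0 ∧ z b ≠ 1)).card →
    ∃ z' : B → ℝ, (∀ b, 0 ≤ z' b ∧ z' b ≤ 1) ∧ (∀ b, (z b = 0 ∨ z b = 1) → z' b = z b) ∧
      (∀ A ∈ R, ∑ b ∈ A, z' b = ∑ b ∈ A, z b) ∧
      (univ.filter (fun b => z' b ≠ 0 ∧ z' b ≠ 1)).card <
        (univ.filter (fun b => z b ≠ 0 ∧ z b ≠ 1)).card

/-- state of the rounding with target `τ` -/
def RState {V B : Type} [DecidableEq V] [Fintype B] [DecidableEq B] (s : B → Finset V) (τ : ℕ)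
    (z : B → ℝ) : Prop :=
  (∀ b, 0 ≤ z b ∧ z b ≤ 1) ∧
  (∀ x, 3 ≤ deg s (univ.filter (fun b => z b ≠ 0 ∧ z b ≠ 1)) x →
    ∑ b ∈ univ.filter (fun b => x ∈ s b), z b = τ) ∧
  (∀ x, deg s (univ.filter (fun b => z b ≠ 0 ∧ z b ≠ 1)) x ≤ 2 →
    τ ≤ deg s (univ.filter (fun b => z b = 1)) x + 1 ∧
    deg s (univ.filter (fun b => z b = 1)) x +
      deg s (univ.filter (fun b => z b ≠ 0 ∧ z b ≠ 1)) x ≤ τ + 1)

/-- RFIN: finishing the rounding without further rows; the blocks of value 1 stay chosen, those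
of value 0 are not chosen -/
def RFinStmt : Prop :=
  ∀ {V B : Type} [Fintype V] [DecidableEq V] [Fintype B] [DecidableEq B]
    (s : B → Finset V) (τ : ℕ) (z : B → ℝ), (∀ b, (s b).card = 3) → RState s τ z →
    ∃ K : Finset B, (∀ b, z b = 1 → b ∈ K) ∧ (∀ b, z b = 0 → b ∉ K) ∧
      ∀ x, τ ≤ deg s K x + 1 ∧ deg s K x ≤ τ + 1

/-- RND -/
def RndStmt : Prop :=
  ∀ {V B : Type} [Fintype V] [DecidableEq V] [Fintype B] [DecidableEq B]
    (s : B → Finset V) (r τ : ℕ), (∀ b, (s b).card = 3) → (∀ x, deg s univ x = r) →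
    0 < τ → τ < r → ∃ K : Finset B, ∀ x, τ ≤ deg s K x + 1 ∧ deg s K x ≤ τ + 1

/-- `L` has an exit of value 1 which is not a line of a member of `𝓛` -/
def HasExit {V B : Type} [DecidableEq V] [DecidableEq B] (s : B → Finset V) (z : B → ℝ)
    (𝓛 : Finset (Finset B)) (L : Finset B) : Prop :=
  ∃ b, z b = 1 ∧ b ∉ L ∧ ¬ Disjoint (s b) (pts s L) ∧ ∀ L' ∈ 𝓛, b ∉ L'

/-- hypotheses of the counting -/
structure CntHyp {V B : Type} [Fintype V] [DecidableEq V] [Fintype B] [DecidableEq B]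
    (s : B → Finset V) (r : ℕ) (z : B → ℝ) (𝓛 : Finset (Finset B)) : Prop where
  card3 : ∀ b, (s b).card = 3
  bd : ∀ b, 0 ≤ z b ∧ z b ≤ 1
  act : ∀ x, 3 ≤ deg s (univ.filter (fun b => z b ≠ 0 ∧ z b ≠ 1)) x →
    ∑ b ∈ univ.filter (fun b => x ∈ s b), z b = 3
  bad : ∀ L ∈ 𝓛, BadP s L
  pos : ∀ L ∈ 𝓛, ∀ b ∈ L, z b ≠ 0
  row : ∀ L ∈ 𝓛, ∑ b ∈ L, z b = 12 / (r : ℝ)
  noA : ∀ L ∈ 𝓛, ∀ b b', b ≠ b' →
    (z b = 1 ∧ b ∉ L ∧ ¬ Disjoint (s b) (pts s L) ∧ ∀ L' ∈ 𝓛, b ∉ L') →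
    ¬ (z b' = 1 ∧ b' ∉ L ∧ ¬ Disjoint (s b') (pts s L) ∧ ∀ L' ∈ 𝓛, b' ∉ L')
  noB : ∀ L ∈ 𝓛, ∀ L' ∈ 𝓛, L ≠ L' → ∀ ℓ ∈ L', z ℓ = 1 → ¬ Disjoint (s ℓ) (pts s L) →
    ¬ (HasExit s z 𝓛 L ∧ HasExit s z 𝓛 L')

/-- CNT8 -/
def Cnt8Stmt : Prop :=
  ∀ {V B : Type} [Fintype V] [DecidableEq V] [Fintype B] [DecidableEq B]
    (s : B → Finset V) (r : ℕ) (z : B → ℝ) (𝓛 : Finset (Finset B)), 8 ≤ r →
    CntHyp s r z 𝓛 → 𝓛.Nonempty →
    (univ.filter (fun x => 3 ≤ deg s (univ.filter (fun b => z b ≠ 0 ∧ z b ≠ 1)) x)).card +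
      𝓛.card < (univ.filter (fun b => z b ≠ 0 ∧ z b ≠ 1)).card

/-- CNT7 -/
def Cnt7Stmt : Prop :=
  ∀ {V B : Type} [Fintype V] [DecidableEq V] [Fintype B] [DecidableEq B]
    (s : B → Finset V) (z : B → ℝ) (𝓛 : Finset (Finset B)),
    CntHyp s 7 z 𝓛 → 𝓛.Nonempty →
    (univ.filter (fun x => 3 ≤ deg s (univ.filter (fun b => z b ≠ 0 ∧ z b ≠ 1)) x)).card +
      𝓛.card < (univ.filter (fun b => z b ≠ 0 ∧ z b ≠ 1)).card

/-- RNDP -/
def RndPStmt : Prop :=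
  ∀ {V B : Type} [Fintype V] [DecidableEq V] [Fintype B] [DecidableEq B]
    (s : B → Finset V) (r : ℕ), 7 ≤ r → (∀ b, (s b).card = 3) → (∀ x, deg s univ x = r) →
    ∃ K : Finset B, (∀ x, 2 ≤ deg s K x ∧ deg s K x ≤ 4) ∧
      ∀ 𝒞 : Finset (Finset B), 𝒞.Nonempty → (∀ L ∈ 𝒞, BadP s L ∧ L ⊆ K) → ¬ ClosedFam s K 𝒞

/-! ### Clusters -/

/-- LEAFISO: a Pasch all of whose exits are at one point shares no block with another Pasch -/
def LeafIsoStmt : Prop :=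
  ∀ {V B : Type} [Fintype V] [DecidableEq V] [Fintype B] [DecidableEq B]
    (s : B → Finset V) (K L : Finset B) (x : V), L ⊆ K → Pasch s L →
    (∀ b ∈ K, b ∉ L → s b ∩ pts s L ⊆ {x}) →
    ∀ L', Pasch s L' → L' ⊆ K → L' ≠ L → Disjoint L L'

/-- PROB: a single Pasch is robust -/
def PRobStmt : Prop :=
  ∀ {V B : Type} [Fintype V] [DecidableEq V] [Fintype B] [DecidableEq B]
    (s : B → Finset V) (L : Finset B), Pasch s L → Robust s L (pts s L)

/-- GLUE: gluing a Pasch at one point -/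
def GlueStmt : Prop :=
  ∀ {V B : Type} [Fintype V] [DecidableEq V] [Fintype B] [DecidableEq B]
    (s : B → Finset V) (Λ L : Finset B) (W : Finset V) (x : V), Disjoint Λ L →
    (∀ b ∈ Λ, s b ⊆ W) → Robust s Λ W → Robust s L (pts s L) → (∀ b ∈ L, s b ⊆ pts s L) →
    W ∩ pts s L = {x} → Robust s (Λ ∪ L) (W ∪ pts s L)

/-- THMA: removing clusters.  `X` is the ground set. -/
def ThmAStmt : Prop :=
  ∀ {V B : Type} [Fintype V] [DecidableEq V] [Fintype B] [DecidableEq B]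
    (s : B → Finset V) (K : Finset B) (X : Finset V),
    (∀ b ∈ K, (s b).Nonempty ∧ (s b).card ≤ 3 ∧ s b ⊆ X) →
    (∀ x ∈ X, 2 ≤ deg s K x ∧ deg s K x ≤ 4) →
    ∃ (T : Finset (Finset V)) (fam : Finset V → Finset (Finset B)) (C : Finset B)
      (c : B → Bool), (∀ W ∈ T, W ⊆ X ∧ IsCluster s K W (fam W)) ∧
      (∀ W ∈ T, ∀ W' ∈ T, W ≠ W' → Disjoint W W') ∧ C ⊆ K ∧
      (∀ W ∈ T, ∀ L ∈ fam W, Disjoint C L) ∧
      ∀ x ∈ X, (∀ W ∈ T, x ∉ W) → Sat s C c x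

/-- FIN7: final assembly for `r ≥ 7` -/
def Fin7Stmt : Prop :=
  ∀ {V B : Type} [Fintype V] [DecidableEq V] [Fintype B] [DecidableEq B]
    (s : B → Finset V) (K : Finset B) (T : Finset (Finset V))
    (fam : Finset V → Finset (Finset B)) (C : Finset B) (c : B → Bool),
    (∀ b, (s b).card = 3) → (∀ W ∈ T, IsCluster s K W (fam W)) →
    (∀ W ∈ T, ∃ L ∈ fam W, ¬ BadP s L) →
    (∀ W ∈ T, ∀ W' ∈ T, W ≠ W' → Disjoint W W') → C ⊆ K →
    (∀ W ∈ T, ∀ L ∈ fam W, Disjoint C L) → (∀ x, (∀ W ∈ T, x ∉ W) → Sat s C c x) →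
    ∃ (C' : Finset B) (c' : B → Bool), ∀ x, Sat s C' c' x

/-! ### Selection for `r = 5` -/

/-- HALF: two involutions, a 2-colouring changing along both -/
def HalfStmt : Prop :=
  ∀ {I : Type} [Fintype I] [DecidableEq I] (σ τ : I → I), (∀ i, σ (σ i) = i) →
    (∀ i, τ (τ i) = i) →
    ∃ χ : I → Bool, (∀ i, σ i ≠ i → χ (σ i) ≠ χ i) ∧ (∀ i, τ i ≠ i → χ (τ i) ≠ χ i)

/-- STAGE: one halving step.  `A` is a finite set with a matching `σ`; of every matched pair at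
most one survives, unmatched elements survive, and every class of `t` keeps at least half of its
matched elements (rounded down) -/
def StageStmt : Prop :=
  ∀ {I J : Type} [Fintype I] [DecidableEq I] [DecidableEq J] (A : Finset I) (t : I → J)
    (σ : I → I), (∀ i, σ (σ i) = i) → (∀ i ∈ A, σ i ∈ A) →
    ∃ A' ⊆ A, (∀ i ∈ A, σ i = i → i ∈ A') ∧ (∀ i ∈ A', σ i ≠ i → σ i ∉ A') ∧
      ∀ j, (A.filter (fun i => t i = j ∧ σ i ≠ i)).card ≤
        2 * (A'.filter (fun i => t i = j ∧ σ i ≠ i)).card + 1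

/-- LAB: labels of the points of `S`.  Every point of `S` is in at most two blocks of `G`,
every block of `G` has at most two points of `S`. -/
def LabStmt : Prop :=
  ∀ {V B : Type} [Fintype V] [DecidableEq V] [Fintype B] [DecidableEq B]
    (s : B → Finset V) (G : Finset B) (S : Finset V), (∀ w ∈ S, deg s G w ≤ 2) →
    (∀ g ∈ G, (s g ∩ S).card ≤ 2) →
    ∃ lab : V → Fin 3, (∀ g ∈ G, ∀ w ∈ s g ∩ S, ∀ w' ∈ s g ∩ S, w ≠ w' → lab w ≠ lab w') ∧
      ∀ g ∈ G, ∀ w ∈ S, s g ∩ S = {w} → lab w ≠ 2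

/-- SEL -/
def SelStmt : Prop :=
  ∀ {V B J : Type} [Fintype V] [DecidableEq V] [Fintype B] [DecidableEq B] [DecidableEq J]
    (s : B → Finset V) (G : Finset B) (S : Finset V) (T : Finset J)
    (inc : J → Finset (V × B)), (∀ g, (s g).card ≤ 3) → (∀ w ∈ S, deg s G w ≤ 2) →
    (∀ t ∈ T, ∀ z ∈ inc t, z.2 ∈ G ∧ z.1 ∈ s z.2 ∧ z.1 ∉ S ∧ (s z.2 ∩ S).Nonempty) →
    (∀ t ∈ T, ∀ t' ∈ T, ∀ z ∈ inc t, ∀ z' ∈ inc t', z.1 = z'.1 → t = t') →
    (∀ t ∈ T, 8 ≤ (inc t).card) → T.Nonempty →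
    ∃ σ : J → V × B, (∀ t ∈ T, σ t ∈ inc t) ∧
      ∀ t ∈ T, ∀ t' ∈ T, ∀ w ∈ S, w ∈ s (σ t).2 → w ∈ s (σ t').2 → (σ t).2 = (σ t').2

/-! ### Main statements -/

/-- the dual form of the problem -/
def DualStmt (r : ℕ) : Prop :=
  ∀ {V B : Type} [Fintype V] [DecidableEq V] [Fintype B] [DecidableEq B]
    (s : B → Finset V), (∀ b, (s b).card = 3) → (∀ x, deg s univ x = r) →
    ∃ (C : Finset B) (c : B → Bool), ∀ x, Sat s C c x ∨ deg s C x + 1 = r

/-- conflict-free colouring -/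
def IsConflictFree {V : Type*} (E : Finset (Finset V)) {k : ℕ} (c : V → Fin k) : Prop :=
  ∀ e ∈ E, ∃ v ∈ e, ∀ u ∈ e, u ≠ v → c u ≠ c v

/-- RED: the case of maximum degree at most three -/
def RedStmt : Prop :=
  ∀ r : ℕ, 1 ≤ r → DualStmt r → ∀ (n : ℕ) (E : Finset (Finset (Fin n))),
    (∀ e ∈ E, e.card = r) → (∀ v, (E.filter (fun e => v ∈ e)).card ≤ 3) →
    ∃ c : Fin n → Fin 3, IsConflictFree E c

/-- MAIN5 (assembly for r = 5, from `OPT5`, `TOK`, `SEL`, ...) -/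
def Main5Stmt : Prop := DualStmt 5

/-- MAIN6 -/
def Main6Stmt : Prop := DualStmt 6

/-- MAIN7 -/
def Main7Stmt : Prop := ∀ r : ℕ, 7 ≤ r → DualStmt r

/-- the full theorem -/
def FinalStmt : Prop :=
  ∀ (r Δ : ℕ), 5 ≤ r → 3 ≤ Δ → ∀ {V : Type} [Fintype V] [DecidableEq V]
    (E : Finset (Finset V)), (∀ e ∈ E, e.card = r) →
    (∀ v : V, (E.filter (fun e => v ∈ e)).card ≤ Δ) → ∃ c : V → Fin Δ, IsConflictFree E c

end Pool.Agent.Helper29_CF
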