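import Mathlib
import Pool.Agent.Helper29_CF.Defs

/-!
Extension of a coloured family by one new block `g` and completions of the tokens met by it.
-/

namespace Pool.Agent.Helper29_CF.H29

open Finset Pool.Agent.Helper29_CF

variable {V B : Type} [DecidableEq V] [DecidableEq B]

theorem cdeg_congr {s : B → Finset V} {C C' : Finset B} {c c' : B → Bool} {x : V}
    (h : ∀ b, x ∈ s b → (b ∈ C ↔ b ∈ C')) (hc : ∀ b ∈ C, x ∈ s b → c b = c' b) (κ : Bool) :
    cdeg s C c κ x = cdeg s C' c' κ x := by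
  unfold cdeg
  congr 1
  ext b
  simp only [Finset.mem_filter]
  constructor
  · rintro ⟨h1, h2, h3⟩
    exact ⟨(h b h2).1 h1, h2, by rw [← hc b h1 h2]; exact h3⟩
  · rintro ⟨h1, h2, h3⟩
    have h4 := (h b h2).2 h1
    exact ⟨h4, h2, by rw [hc b h4 h2]; exact h3⟩

theorem deg_congr {s : B → Finset V} {C C' : Finset B} {x : V}
    (h : ∀ b, x ∈ s b → (b ∈ C ↔ b ∈ C')) : deg s C x = deg s C' x := by
  unfold deg
  congr 1
  ext b
  simp only [Finset.mem_filter]
  constructor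
  · rintro ⟨h1, h2⟩
    exact ⟨(h b h2).1 h1, h2⟩
  · rintro ⟨h1, h2⟩
    exact ⟨(h b h2).2 h1, h2⟩

theorem cdeg_insert_same {s : B → Finset V} {C : Finset B} {c : B → Bool} {x : V} {g : B}
    (hg : g ∉ C) (hx : x ∈ s g) : cdeg s (insert g C) c (c g) x = cdeg s C c (c g) x + 1 := by
  unfold cdeg
  rw [Finset.filter_insert, if_pos ⟨hx, rfl⟩, Finset.card_insert_of_notMem]
  intro h
  exact hg (Finset.mem_filter.1 h).1

theorem cdeg_insert_other {s : B → Finset V} {C : Finset B} {c : B → Bool} {x : V} {g : B}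
    {κ : Bool} (hκ : c g ≠ κ) : cdeg s (insert g C) c κ x = cdeg s C c κ x := by
  unfold cdeg
  rw [Finset.filter_insert, if_neg]
  rintro ⟨-, h⟩
  exact hκ h

theorem cdeg_insert_notMem {s : B → Finset V} {C : Finset B} {c : B → Bool} {x : V} {g : B}
    {κ : Bool} (hx : x ∉ s g) : cdeg s (insert g C) c κ x = cdeg s C c κ x := by
  unfold cdeg
  rw [Finset.filter_insert, if_neg]
  rintro ⟨h, -⟩
  exact hx h

theorem deg_insert_mem {s : B → Finset V} {C : Finset B} {x : V} {g : B}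
    (hg : g ∉ C) (hx : x ∈ s g) : deg s (insert g C) x = deg s C x + 1 := by
  unfold deg
  rw [Finset.filter_insert, if_pos hx, Finset.card_insert_of_notMem]
  intro h
  exact hg (Finset.mem_filter.1 h).1

theorem deg_insert_notMem {s : B → Finset V} {C : Finset B} {x : V} {g : B}
    (hx : x ∉ s g) : deg s (insert g C) x = deg s C x := by
  unfold deg
  rw [Finset.filter_insert, if_neg hx]

/-- Extension by a block `g` of colour `κ` and by completions `L Q` of pairwise disjoint untouched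
sets `Q ∈ Y`. -/
theorem ext (s : B → Finset V) (C : Finset B) (c : B → Bool) (g : B) (κ : Bool)
    (Y : Finset (Finset V)) (L : Finset V → Finset B) (cc : Finset V → B → Bool)
    (hg : g ∉ C) (hY : ∀ Q ∈ Y, ∀ Q' ∈ Y, Q ≠ Q' → Disjoint Q Q')
    (hC : ∀ Q ∈ Y, ∀ b ∈ C, Disjoint (s b) Q) (hL : ∀ Q ∈ Y, ∀ b ∈ L Q, s b ⊆ Q)
    (hgL : ∀ Q ∈ Y, g ∉ L Q) (hcc : ∀ Q ∈ Y, cc Q g = κ) :
    ∃ c' : B → Bool,
      (∀ Q ∈ Y, ∀ x ∈ Q, (∀ κ', cdeg s (C ∪ insert g (Y.biUnion L)) c' κ' x =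
        cdeg s (insert g (L Q)) (cc Q) κ' x) ∧
        deg s (C ∪ insert g (Y.biUnion L)) x = deg s (insert g (L Q)) x) ∧
      (∀ x, (∀ Q ∈ Y, x ∉ Q) → x ∉ s g →
        (∀ κ', cdeg s (C ∪ insert g (Y.biUnion L)) c' κ' x = cdeg s C c κ' x) ∧
        deg s (C ∪ insert g (Y.biUnion L)) x = deg s C x) ∧
      (∀ x, (∀ Q ∈ Y, x ∉ Q) → x ∈ s g →
        cdeg s (C ∪ insert g (Y.biUnion L)) c' κ x = cdeg s C c κ x + 1 ∧
        cdeg s (C ∪ insert g (Y.biUnion L)) c' (!κ) x = cdeg s C c (!κ) x ∧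
        deg s (C ∪ insert g (Y.biUnion L)) x = deg s C x + 1) := by
  classical
  set c' : B → Bool := fun b => if b = g then κ else
    if h : ∃ Q ∈ Y, b ∈ L Q ∧ (s b).Nonempty then cc h.choose b else c b with hc'
  have hc'g : c' g = κ := by simp [hc']
  have hmem : ∀ b, b ∈ C ∪ insert g (Y.biUnion L) ↔ b ∈ C ∨ b = g ∨ ∃ Q ∈ Y, b ∈ L Q := by
    intro b
    simp only [Finset.mem_union, Finset.mem_insert, Finset.mem_biUnion]
  have huniq : ∀ Q ∈ Y, ∀ Q' ∈ Y, ∀ b, b ∈ L Q → b ∈ L Q' → (s b).Nonempty → Q = Q' := by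
    intro Q hQ Q' hQ' b hb hb' hne
    by_contra hne'
    obtain ⟨x, hx⟩ := hne
    exact Finset.disjoint_left.1 (hY Q hQ Q' hQ' hne') (hL Q hQ b hb hx) (hL Q' hQ' b hb' hx)
  have hc'L : ∀ Q ∈ Y, ∀ b ∈ L Q, (s b).Nonempty → c' b = cc Q b := by
    intro Q hQ b hb hne
    have hbg : b ≠ g := fun h => hgL Q hQ (h ▸ hb)
    have hex : ∃ Q ∈ Y, b ∈ L Q ∧ (s b).Nonempty := ⟨Q, hQ, hb, hne⟩
    simp only [hc', if_neg hbg, dif_pos hex]
    have h1 := hex.choose_spec
    have : hex.choose = Q := huniq _ h1.1 Q hQ b h1.2.1 hb hne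
    rw [this]
  have hc'C : ∀ b ∈ C, (s b).Nonempty → c' b = c b := by
    intro b hb hne
    have hbg : b ≠ g := fun h => hg (h ▸ hb)
    have hex : ¬ ∃ Q ∈ Y, b ∈ L Q ∧ (s b).Nonempty := by
      rintro ⟨Q, hQ, hbL, -⟩
      obtain ⟨x, hx⟩ := hne
      exact Finset.disjoint_left.1 (hC Q hQ b hb) hx (hL Q hQ b hbL hx)
    simp only [hc', if_neg hbg, dif_neg hex]
  refine ⟨c', ?_, ?_, ?_⟩
  · intro Q hQ x hx
    have hiff : ∀ b, x ∈ s b → (b ∈ C ∪ insert g (Y.biUnion L) ↔ b ∈ insert g (L Q)) := by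
      intro b hxb
      rw [hmem, Finset.mem_insert]
      constructor
      · rintro (h | h | ⟨Q', hQ', h⟩)
        · exact absurd hx (Finset.disjoint_left.1 (hC Q hQ b h) hxb)
        · exact Or.inl h
        · by_cases hQQ : Q' = Q
          · exact Or.inr (hQQ ▸ h)
          · exact absurd hx (Finset.disjoint_left.1 (hY Q' hQ' Q hQ hQQ) (hL Q' hQ' b h hxb))
      · rintro (h | h)
        · exact Or.inr (Or.inl h)
        · exact Or.inr (Or.inr ⟨Q, hQ, h⟩)
    refine ⟨fun κ' => ?_, deg_congr hiff⟩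
    refine cdeg_congr hiff ?_ κ'
    intro b hb hxb
    rcases Finset.mem_insert.1 ((hiff b hxb).1 hb) with h | h
    · rw [h, hc'g, hcc Q hQ]
    · exact hc'L Q hQ b h ⟨x, hxb⟩
  · intro x hxY hxg
    have hiff : ∀ b, x ∈ s b → (b ∈ C ∪ insert g (Y.biUnion L) ↔ b ∈ C) := by
      intro b hxb
      rw [hmem]
      constructor
      · rintro (h | h | ⟨Q', hQ', h⟩)
        · exact h
        · exact absurd (h ▸ hxb) hxg
        · exact absurd (hL Q' hQ' b h hxb) (hxY Q' hQ')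
      · exact fun h => Or.inl h
    refine ⟨fun κ' => ?_, deg_congr hiff⟩
    refine cdeg_congr hiff ?_ κ'
    intro b hb hxb
    exact hc'C b ((hiff b hxb).1 hb) ⟨x, hxb⟩
  · intro x hxY hxg
    have hiff : ∀ b, x ∈ s b → (b ∈ C ∪ insert g (Y.biUnion L) ↔ b ∈ insert g C) := by
      intro b hxb
      rw [hmem, Finset.mem_insert]
      constructor
      · rintro (h | h | ⟨Q', hQ', h⟩)
        · exact Or.inr h
        · exact Or.inl h
        · exact absurd (hL Q' hQ' b h hxb) (hxY Q' hQ')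
      · rintro (h | h)
        · exact Or.inr (Or.inl h)
        · exact Or.inl h
    have hcol : ∀ κ', cdeg s (C ∪ insert g (Y.biUnion L)) c' κ' x =
        cdeg s (insert g C) (fun b => if b = g then κ else c b) κ' x := by
      intro κ'
      refine cdeg_congr hiff ?_ κ'
      intro b hb hxb
      rcases Finset.mem_insert.1 ((hiff b hxb).1 hb) with h | h
      · simp [h, hc'g]
      · have hbg : b ≠ g := fun h' => hg (h' ▸ h)
        simp only [if_neg hbg]
        exact hc'C b h ⟨x, hxb⟩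
    have hcC : ∀ κ', cdeg s C (fun b => if b = g then κ else c b) κ' x = cdeg s C c κ' x := by
      intro κ'
      refine cdeg_congr (fun b _ => Iff.rfl) ?_ κ'
      intro b hb _
      have hbg : b ≠ g := fun h' => hg (h' ▸ hb)
      simp only [if_neg hbg]
    refine ⟨?_, ?_, ?_⟩
    · rw [hcol]
      have := cdeg_insert_same (s := s) (C := C) (c := fun b => if b = g then κ else c b)
        (x := x) (g := g) hg hxg
      simp only [if_true] at this
      rw [this, hcC]
    · rw [hcol, cdeg_insert_other, hcC]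
      simp
    · rw [deg_congr hiff, deg_insert_mem hg hxg]

end Pool.Agent.Helper29_CF.H29
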