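import Mathlib
import Pool.Agent.Helper29_CF.Stmt
import Pool.Agent.Helper29_CF.Ext

/-!
Module ABS of the squad `cf`.
-/

namespace Pool.Agent.Helper29_CF.H29

open Finset Pool.Agent.Helper29_CF

theorem sat_of_harmless {V B : Type} [DecidableEq V] [DecidableEq B] {s : B → Finset V}
    {C : Finset B} {c : B → Bool} {x : V} {κ : Bool} (h : cdeg s C c (!κ) x = 1) :
    Sat s C c x := ⟨!κ, h⟩

theorem abs' : AbsStmt := by
  intro V B _ _ _ _ s K C0 c0 D T S own hne hK hC0 hT hTS hTC hsat hown huniq hcan htouch
  classical
  -- the main induction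
  have main : ∀ n : ℕ, ∀ X ⊆ T, X.card = n → ∀ (C : Finset B) (c : B → Bool), C ⊆ K →
      (∀ Q ∈ X, ∀ b ∈ C, Disjoint (s b) Q) →
      (∀ x, x ∉ S → (∀ Q ∈ X, x ∉ Q) → Sat s C c x ∨ deg s C x = D) →
      (∀ x ∈ S, (deg s C x = deg s C0 x ∧ (Sat s C c x ∨ deg s C x = D)) ∨
        (deg s C x = deg s C0 x + 1 ∧ ∃ Q ∈ T, own Q ∈ C ∧ x ∈ s (own Q))) →
      ∃ C ⊆ K, ∃ c : B → Bool, (∀ x, x ∉ S → Sat s C c x ∨ deg s C x = D) ∧
        ∀ x ∈ S, Sat s C c x ∨ deg s C x = D ∨ deg s C x = deg s C0 x + 1 := by
    intro n
    induction n using Nat.strong_induction_on with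
    | _ n ih =>
    intro X hXT hXn C c hCK hXC hS1 hS2
    rcases X.eq_empty_or_nonempty with hX | ⟨Q, hQ⟩
    · subst hX
      refine ⟨C, hCK, c, ?_, ?_⟩
      · intro x hx
        exact hS1 x hx (fun Q hQ => absurd hQ (Finset.notMem_empty Q))
      · intro x hx
        rcases hS2 x hx with ⟨-, h | h⟩ | ⟨h, -⟩
        · exact Or.inl h
        · exact Or.inr (Or.inl h)
        · exact Or.inr (Or.inr h)
    · have hQT := hXT hQ
      obtain ⟨hgK, hgQ, hgcard⟩ := hown Q hQT
      set g := own Q with hg
      have hgC : g ∉ C := by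
        intro h
        obtain ⟨y, hy⟩ := hgQ
        rw [Finset.mem_inter] at hy
        exact Finset.disjoint_left.1 (hXC Q hQ g h) hy.1 hy.2
      -- the general step
      have step : ∀ (Y : Finset (Finset V)) (κ : Bool), Y ⊆ X → Q ∈ Y →
          (∀ Q' ∈ Y, CanC s K D Q' g) →
          (∀ Q' ∈ X, Q' ∉ Y → Disjoint (s g) Q') →
          (∀ x ∈ s g, x ∉ S → (∀ Q' ∈ Y, x ∉ Q') → cdeg s C c (!κ) x = 1) →
          ∃ C ⊆ K, ∃ c : B → Bool, (∀ x, x ∉ S → Sat s C c x ∨ deg s C x = D) ∧
            ∀ x ∈ S, Sat s C c x ∨ deg s C x = D ∨ deg s C x = deg s C0 x + 1 := by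
        intro Y κ hYX hQY hYcan hXY hharm
        -- choose completions
        have hch : ∀ Q' : Finset V, ∃ (L : Finset B) (cc : B → Bool), Q' ∈ Y →
            L ⊆ K ∧ (∀ b ∈ L, s b ⊆ Q') ∧ g ∉ L ∧ cc g = κ ∧
            ∀ y ∈ Q', Sat s (insert g L) cc y ∨ deg s (insert g L) y = D := by
          intro Q'
          by_cases h : Q' ∈ Y
          · obtain ⟨L, h1, h2, h3, cc, h4, h5⟩ := hYcan Q' h κ
            exact ⟨L, cc, fun _ => ⟨h1, h2, h3, h4, h5⟩⟩
          · exact ⟨∅, fun _ => κ, fun h' => absurd h' h⟩
        choose L cc hLc using hch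
        obtain ⟨c', hc1, hc2, hc3⟩ := ext s C c g κ Y L cc hgC
          (fun Q1 h1 Q2 h2 h12 => hT Q1 (hXT (hYX h1)) Q2 (hXT (hYX h2)) h12)
          (fun Q1 h1 b hb => hXC Q1 (hYX h1) b hb)
          (fun Q1 h1 b hb => (hLc Q1 h1).2.1 b hb)
          (fun Q1 h1 => (hLc Q1 h1).2.2.1) (fun Q1 h1 => (hLc Q1 h1).2.2.2.1)
        set C' := C ∪ insert g (Y.biUnion L) with hC'
        have hgC' : g ∈ C' := by
          rw [hC']
          exact Finset.mem_union_right _ (Finset.mem_insert_self _ _)
        have hC'K : C' ⊆ K := by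
          rw [hC']
          apply Finset.union_subset hCK
          intro b hb
          rcases Finset.mem_insert.1 hb with h | h
          · rw [h]; exact hgK
          · obtain ⟨Q', hQ', hb'⟩ := Finset.mem_biUnion.1 h
            exact (hLc Q' hQ').1 hb'
        have hcard : (X \ Y).card < n := by
          rw [← hXn]
          apply Finset.card_lt_card
          refine ⟨Finset.sdiff_subset, fun h => ?_⟩
          exact (Finset.mem_sdiff.1 (h hQ)).2 hQY
        refine ih (X \ Y).card hcard (X \ Y)
          (fun Q' h => hXT (Finset.mem_sdiff.1 h).1) rfl C' c' hC'K ?_ ?_ ?_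
        · -- untouched
          intro Q' hQ' b hb
          rw [Finset.mem_sdiff] at hQ'
          rw [hC', Finset.mem_union, Finset.mem_insert, Finset.mem_biUnion] at hb
          rcases hb with h | h | ⟨Q'', hQ'', h⟩
          · exact hXC Q' hQ'.1 b h
          · rw [h]; exact hXY Q' hQ'.1 hQ'.2
          · have hne' : Q'' ≠ Q' := fun h' => hQ'.2 (h' ▸ hQ'')
            exact Finset.disjoint_of_subset_left ((hLc Q'' hQ'').2.1 b h)
              (hT Q'' (hXT (hYX hQ'')) Q' (hXT hQ'.1) hne')
        · -- outside S
          intro x hxS hxX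
          by_cases hxY : ∃ Q' ∈ Y, x ∈ Q'
          · obtain ⟨Q', hQ', hxQ'⟩ := hxY
            obtain ⟨h1, h2⟩ := hc1 Q' hQ' x hxQ'
            rcases (hLc Q' hQ').2.2.2.2 x hxQ' with ⟨κ', h⟩ | h
            · exact Or.inl ⟨κ', by rw [h1]; exact h⟩
            · exact Or.inr (by rw [h2]; exact h)
          · push Not at hxY
            have hxX' : ∀ Q' ∈ X, x ∉ Q' := by
              intro Q' hQ'
              by_cases h : Q' ∈ Y
              · exact hxY Q' h
              · exact hxX Q' (Finset.mem_sdiff.2 ⟨hQ', h⟩)
            by_cases hxg : x ∈ s g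
            · obtain ⟨-, h2, -⟩ := hc3 x hxY hxg
              exact Or.inl ⟨!κ, by rw [h2]; exact hharm x hxg hxS hxY⟩
            · obtain ⟨h1, h2⟩ := hc2 x hxY hxg
              rcases hS1 x hxS hxX' with ⟨κ', h⟩ | h
              · exact Or.inl ⟨κ', by rw [h1]; exact h⟩
              · exact Or.inr (by rw [h2]; exact h)
        · -- points of S
          intro x hxS
          have hxY : ∀ Q' ∈ Y, x ∉ Q' := fun Q' hQ' hx =>
            Finset.disjoint_left.1 (hTS Q' (hXT (hYX hQ'))) hx hxS
          by_cases hxg : x ∈ s g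
          · right
            obtain ⟨-, -, h3⟩ := hc3 x hxY hxg
            refine ⟨?_, Q, hQT, hgC', hxg⟩
            rcases hS2 x hxS with ⟨h, -⟩ | ⟨-, Q', hQ', hQ'C, hxQ'⟩
            · rw [h3, h]
            · exfalso
              apply hgC
              have := huniq Q hQT Q' hQ' x hxS hxg hxQ'
              rw [hg, this]
              exact hQ'C
          · obtain ⟨h1, h2⟩ := hc2 x hxY hxg
            rcases hS2 x hxS with ⟨h, h'⟩ | ⟨h, Q', hQ', hQ'C, hxQ'⟩
            · left
              refine ⟨by rw [h2, h], ?_⟩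
              rcases h' with ⟨κ', h'⟩ | h'
              · exact Or.inl ⟨κ', by rw [h1]; exact h'⟩
              · exact Or.inr (by rw [h2]; exact h')
            · right
              refine ⟨by rw [h2, h], Q', hQ', ?_, hxQ'⟩
              rw [hC']
              exact Finset.mem_union_left _ hQ'C
      -- the outer point
      by_cases hout : ∃ v ∈ s g \ (Q ∪ S), ∃ Q' ∈ X, v ∈ Q'
      · obtain ⟨v, hv, Q', hQ', hvQ'⟩ := hout
        have hv' := Finset.mem_sdiff.1 hv
        have hvQ : v ∉ Q := fun h => hv'.2 (Finset.mem_union_left _ h)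
        have hvS : v ∉ S := fun h => hv'.2 (Finset.mem_union_right _ h)
        have honly : ∀ y ∈ s g \ (Q ∪ S), y = v := fun y hy =>
          Finset.card_le_one.1 hgcard y hy v hv
        have hQQ' : Q ≠ Q' := fun h => hvQ (h ▸ hvQ')
        have hinter : s g ∩ Q' = {v} := by
          ext y
          rw [Finset.mem_inter, Finset.mem_singleton]
          constructor
          · rintro ⟨h1, h2⟩
            apply honly
            rw [Finset.mem_sdiff, Finset.mem_union]
            refine ⟨h1, ?_⟩
            rintro (h | h)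
            · exact Finset.disjoint_left.1 (hT Q hQT Q' (hXT hQ') hQQ') h h2
            · exact Finset.disjoint_left.1 (hTS Q' (hXT hQ')) h2 h
          · rintro rfl
            exact ⟨hv'.1, hvQ'⟩
        refine step {Q, Q'} true ?_ (Finset.mem_insert_self _ _) ?_ ?_ ?_
        · intro Q'' h
          rcases Finset.mem_insert.1 h with h | h
          · rw [h]; exact hQ
          · rw [Finset.mem_singleton.1 h]; exact hQ'
        · intro Q'' h
          rcases Finset.mem_insert.1 h with h | h
          · rw [h]; exact hcan Q hQT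
          · rw [Finset.mem_singleton.1 h]
            exact htouch Q' (hXT hQ') g hgK (by rw [hinter, Finset.card_singleton])
        · intro Q'' hQ'' hnot
          rw [Finset.mem_insert, Finset.mem_singleton, not_or] at hnot
          rw [Finset.disjoint_left]
          intro y hy hyQ''
          have hyv : y = v := by
            apply honly
            rw [Finset.mem_sdiff, Finset.mem_union]
            refine ⟨hy, ?_⟩
            rintro (h | h)
            · exact Finset.disjoint_left.1 (hT Q hQT Q'' (hXT hQ'') (Ne.symm hnot.1)) h hyQ''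
            · exact Finset.disjoint_left.1 (hTS Q'' (hXT hQ'')) hyQ'' h
          rw [hyv] at hyQ''
          exact Finset.disjoint_left.1 (hT Q' (hXT hQ') Q'' (hXT hQ'') (Ne.symm hnot.2)) hvQ' hyQ''
        · intro x hx hxS hxY
          exfalso
          have hxQ := hxY Q (Finset.mem_insert_self _ _)
          have hxv : x = v := by
            apply honly
            rw [Finset.mem_sdiff, Finset.mem_union]
            exact ⟨hx, fun h => h.elim hxQ hxS⟩
          exact hxY Q' (Finset.mem_insert_of_mem (Finset.mem_singleton_self _)) (hxv ▸ hvQ')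
      · push Not at hout
        have hXY : ∀ Q' ∈ X, Q' ∉ ({Q} : Finset (Finset V)) → Disjoint (s g) Q' := by
          intro Q' hQ' hnot
          rw [Finset.mem_singleton] at hnot
          rw [Finset.disjoint_left]
          intro y hy hyQ'
          refine hout y ?_ Q' hQ' hyQ'
          rw [Finset.mem_sdiff, Finset.mem_union]
          refine ⟨hy, ?_⟩
          rintro (h | h)
          · exact Finset.disjoint_left.1 (hT Q hQT Q' (hXT hQ') (Ne.symm hnot)) h hyQ'
          · exact Finset.disjoint_left.1 (hTS Q' (hXT hQ')) hyQ' h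
        have hharm : ∃ κ : Bool, ∀ x ∈ s g, x ∉ S → x ∉ Q → cdeg s C c (!κ) x = 1 := by
          rcases (s g \ (Q ∪ S)).eq_empty_or_nonempty with h | ⟨v, hv⟩
          · refine ⟨true, fun x hx hxS hxQ => ?_⟩
            exfalso
            have : x ∈ s g \ (Q ∪ S) := by
              rw [Finset.mem_sdiff, Finset.mem_union]
              exact ⟨hx, fun h => h.elim hxQ hxS⟩
            rw [h] at this
            exact absurd this (Finset.notMem_empty x)
          · have hv' := Finset.mem_sdiff.1 hv
            have hvQ : v ∉ Q := fun h => hv'.2 (Finset.mem_union_left _ h)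
            have hvS : v ∉ S := fun h => hv'.2 (Finset.mem_union_right _ h)
            have hsatv : Sat s C c v := by
              rcases hS1 v hvS (fun Q' hQ' => hout v hv Q' hQ') with h | h
              · exact h
              · exfalso
                have h1 : deg s (insert g C) v = deg s C v + 1 := deg_insert_mem hgC hv'.1
                have h2 : deg s (insert g C) v ≤ deg s K v :=
                  Finset.card_le_card (Finset.filter_subset_filter _
                    (Finset.insert_subset hgK hCK))
                have h3 := hK v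
                omega
            obtain ⟨κ', hκ'⟩ := hsatv
            refine ⟨!κ', fun x hx hxS hxQ => ?_⟩
            have hxv : x = v := by
              apply Finset.card_le_one.1 hgcard x _ v hv
              rw [Finset.mem_sdiff, Finset.mem_union]
              exact ⟨hx, fun h => h.elim hxQ hxS⟩
            rw [hxv, Bool.not_not]
            exact hκ'
        obtain ⟨κ, hκ⟩ := hharm
        refine step {Q} κ (Finset.singleton_subset_iff.2 hQ) (Finset.mem_singleton_self _) ?_ hXY ?_
        · intro Q' h
          rw [Finset.mem_singleton.1 h]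
          exact hcan Q hQT
        · intro x hx hxS hxY
          exact hκ x hx hxS (hxY Q (Finset.mem_singleton_self _))
  refine main T.card T (Finset.Subset.refl T) rfl C0 c0 hC0 hTC
    (fun x _ hx => hsat x hx) ?_
  intro x hxS
  left
  refine ⟨rfl, hsat x ?_⟩
  intro Q hQ hx
  exact Finset.disjoint_left.1 (hTS Q hQ) hx hxS

end Pool.Agent.Helper29_CF.H29
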