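import Mathlib
import Pool.Agent.Helper29_CF.Stmt

/-!
Top level assembly of the squad `cf`.
-/

namespace Pool.Agent.Helper29_CF

open Finset

theorem exch_of (hM : ExMStmt) (hB : ExBStmt) : ExchStmt := by
  intro V B _ _ _ _ s K cap F Q f p g h1 h2 h3 h4 h5 h6 h7 h8 h9 h10 h11
  rcases hM s K cap F Q f p g h1 h2 h3 h4 h5 h6 h7 h8 h9 h10 h11 with h | ⟨ha, hb, hc, hd⟩
  · exact Or.inl h
  · exact Or.inr ⟨ha, hb, hc, hd, hB s K cap F Q f p g h1 h2 h3 h4 h5 h6 h7 h8 h9 h10 ha⟩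

theorem kstar_of (hA : Asm67Stmt) (hO : Opt7Stmt) : KStarStmt := by
  intro V B _ _ _ _ s K hK hdeg hleaf
  have hsys : Sys s K 4 := ⟨fun b hb => (hK b hb).1, fun b hb => (hK b hb).2, by norm_num,
    Or.inr fun x => (hdeg x).2⟩
  obtain ⟨C, hC, c, hc⟩ := hA s K 4 hsys (by norm_num)
    (fun F Q Z hF hQ hZ => hO s K hsys hdeg hleaf F Q Z hF hQ hZ)
    ⟨K, Finset.Subset.refl K, fun x => ⟨by have := (hdeg x).1; omega, (hdeg x).2⟩⟩
  refine ⟨C, hC, c, fun x => ?_⟩
  rcases hc x with h | h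
  · exact h
  · exfalso
    have h1 : deg s C x ≤ deg s K x := Finset.card_le_card (Finset.filter_subset_filter _ hC)
    have h2 := (hdeg x).2
    omega

theorem rnd_of (hR : RFinStmt) : RndStmt := by
  intro V B _ _ _ _ s r τ h3 hr h0 h1
  have hr0 : (0 : ℝ) < r := by exact_mod_cast lt_trans h0 h1
  set z : B → ℝ := fun _ => (τ : ℝ) / r with hz
  have hzpos : 0 < (τ : ℝ) / r := div_pos (by exact_mod_cast h0) hr0
  have hzlt : (τ : ℝ) / r < 1 := by rw [div_lt_one hr0]; exact_mod_cast h1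
  have hfl : (univ.filter (fun b => z b ≠ 0 ∧ z b ≠ 1)) = univ := by
    rw [Finset.filter_eq_self]
    intro b _
    exact ⟨ne_of_gt hzpos, ne_of_lt hzlt⟩
  have hone : (univ.filter (fun b => z b = 1)) = ∅ := by
    rw [Finset.filter_eq_empty_iff]
    intro b _
    exact ne_of_lt hzlt
  have hst : RState s τ z := by
    refine ⟨fun b => ⟨le_of_lt hzpos, le_of_lt hzlt⟩, ?_, ?_⟩
    · intro x _
      simp only [hz, Finset.sum_const, nsmul_eq_mul]
      have : ((univ.filter (fun b => x ∈ s b)).card : ℝ) = r := by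
        have := hr x
        unfold deg at this
        exact_mod_cast this
      rw [this]
      field_simp
    · intro x hx
      rw [hfl, hr x] at hx
      rw [hfl, hone, hr x]
      have : deg s (∅ : Finset B) x = 0 := by simp [deg]
      rw [this]
      omega
  obtain ⟨K, -, -, hK⟩ := hR s τ z h3 hst
  exact ⟨K, hK⟩

theorem main6_of (hR : RndStmt) (hA : Asm67Stmt) (hO : Opt6Stmt) : Main6Stmt := by
  intro V B _ _ _ _ s h3 hr
  obtain ⟨K, hK⟩ := hR s 6 4 h3 hr (by norm_num) (by norm_num)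
  have hdeg : ∀ x, 3 ≤ deg s K x ∧ deg s K x ≤ 5 := fun x => by
    have := hK x; omega
  have hsys : Sys s K 5 := ⟨fun b _ => Finset.card_pos.1 (by rw [h3 b]; norm_num),
    fun b _ => le_of_eq (h3 b), le_refl _, Or.inr fun x => (hdeg x).2⟩
  obtain ⟨C, hC, c, hc⟩ := hA s K 5 hsys (by norm_num)
    (fun F Q Z hF hQ hZ => hO s K hsys hdeg F Q Z hF hQ hZ)
    ⟨K, Finset.Subset.refl K, fun x => ⟨by have := (hdeg x).1; omega, (hdeg x).2⟩⟩
  refine ⟨C, c, fun x => ?_⟩
  rcases hc x with h | h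
  · exact Or.inl h
  · exact Or.inr (by omega)

theorem main7_of (hR : RndPStmt) (hT : ThmAStmt) (hF : Fin7Stmt) : Main7Stmt := by
  intro r hr7 V B _ _ _ _ s h3 hr
  obtain ⟨K, hK, hbad⟩ := hR s r hr7 h3 hr
  obtain ⟨T, fam, C, c, hT1, hT2, hC1, hC2, hC3⟩ := hT s K univ
    (fun b _ => ⟨Finset.card_pos.1 (by rw [h3 b]; norm_num), le_of_eq (h3 b),
      Finset.subset_univ _⟩) (fun x _ => hK x)
  obtain ⟨C', c', h⟩ := hF s K T fam C c h3 (fun W hW => (hT1 W hW).2)
    (by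
      intro W hW
      by_contra hcon
      push Not at hcon
      have hcl := (hT1 W hW).2
      exact hbad (fam W) hcl.ne (fun L hL => ⟨hcon L hL, (hcl.pasch L hL).2⟩) hcl.closed)
    hT2 hC1 hC2 (fun x hx => hC3 x (Finset.mem_univ x) hx)
  exact ⟨C', c', fun x => Or.inl (h x)⟩

theorem dual_of (h5 : Main5Stmt) (h6 : Main6Stmt) (h7 : Main7Stmt) : ∀ r, 5 ≤ r → DualStmt r := by
  intro r hr
  rcases Nat.lt_or_ge r 7 with h | h
  · interval_cases r
    · exact h5
    · exact h6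
  · exact h7 r h

end Pool.Agent.Helper29_CF
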