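import Mathlib
import Pool.Agent.Helper29_CF.Stmt
import Pool.Agent.Helper29_CF.Ext

/-!
Module ASM67 of the squad `cf`.
-/

namespace Pool.Agent.Helper29_CF.H29

open Finset Pool.Agent.Helper29_CF

theorem closed_inter {V B : Type} [DecidableEq V] [DecidableEq B] {s : B → Finset V}
    {F : Finset B} {W W' : Finset V} (h : Closed s F W) (h' : Closed s F W') :
    Closed s F (W ∩ W') := by
  intro b hb
  rcases h b hb with h1 | h1
  · rcases h' b hb with h2 | h2
    · exact Or.inl (Finset.subset_inter h1 h2)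
    · exact Or.inr (Finset.disjoint_of_subset_right Finset.inter_subset_right h2)
  · exact Or.inr (Finset.disjoint_of_subset_right Finset.inter_subset_left h1)

theorem comp_disjoint {V B : Type} [DecidableEq V] [DecidableEq B] {s : B → Finset V}
    {F : Finset B} {W W' : Finset V} (h : IsComp s F W) (h' : IsComp s F W') (hne : W ≠ W') :
    Disjoint W W' := by
  rw [Finset.disjoint_iff_inter_eq_empty]
  by_contra hcon
  have h1 : (W ∩ W').Nonempty := Finset.nonempty_iff_ne_empty.2 hcon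
  have h2 := closed_inter h.2.1 h'.2.1
  have h3 := h.2.2 _ Finset.inter_subset_left h1 h2
  have h4 := h'.2.2 _ Finset.inter_subset_right h1 h2
  exact hne (h3.symm.trans h4)

theorem mem_eos {V B : Type} [Fintype V] [DecidableEq V] [DecidableEq B] {s : B → Finset V}
    {F : Finset B} {W : Finset V} : W ∈ eos s F ↔ EO s F W := by
  classical
  unfold eos
  simp only [Finset.mem_filter, Finset.mem_univ, true_and]

theorem canC_of_canF {V B : Type} [DecidableEq V] [DecidableEq B] {s : B → Finset V}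
    {K F : Finset B} {Q : Finset V} {g : B} (hFK : F ⊆ K) (hg : g ∉ F) (h : CanF s F Q g) :
    CanC s K 5 Q g := by
  intro κ
  obtain ⟨L, hL, h1, c, h2, h3⟩ := h κ
  exact ⟨L, hL.trans hFK, h1, fun h' => hg (hL h'), c, h2, h3⟩

/-- the facts about the part outside the tokens, used in the assemblies -/
theorem outer {V B : Type} [Fintype V] [DecidableEq V] [Fintype B] [DecidableEq B]
    (hCol : ColStmt) (hG : GoodExStmt) {s : B → Finset V} {K : Finset B} {cap : ℕ}
    {F : Finset B} (hsys : Sys s K cap) (hF : Good s K cap F) :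
    ∃ c0 : B → Bool, ∀ x, (∀ Q ∈ eos s F, x ∉ Q) →
      (deg s F x ≤ 4 → Sat s (F.filter (fun b => ∀ Q ∈ eos s F, Disjoint (s b) Q)) c0 x) ∧
      deg s (F.filter (fun b => ∀ Q ∈ eos s F, Disjoint (s b) Q)) x = deg s F x := by
  classical
  have hFK := hF.adm.1
  set N : Finset V := univ.filter (fun x => ∀ Q ∈ eos s F, x ∉ Q) with hN
  have memN : ∀ x, x ∈ N ↔ ∀ Q ∈ eos s F, x ∉ Q := by
    intro x; rw [hN, Finset.mem_filter]; exact ⟨fun h => h.2, fun h => ⟨Finset.mem_univ _, h⟩⟩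
  have htouch : ∀ b ∈ F, ∀ Q ∈ eos s F, ∀ x ∈ s b, x ∈ Q → s b ⊆ Q := by
    intro b hb Q hQ x hx hxQ
    rcases (mem_eos.1 hQ).1.2.1 b hb with h | h
    · exact h
    · exact absurd hxQ (Finset.disjoint_left.1 h hx)
  have hclosed : Closed s F N := by
    intro b hb
    by_cases h : ∃ Q ∈ eos s F, ∃ x ∈ s b, x ∈ Q
    · obtain ⟨Q, hQ, x, hx, hxQ⟩ := h
      right
      rw [Finset.disjoint_left]
      intro y hy hyN
      exact (memN y).1 hyN Q hQ (htouch b hb Q hQ x hx hxQ hy)
    · push Not at h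
      left
      intro y hy
      rw [memN]
      intro Q hQ
      exact h Q hQ y hy
  have hnodes : ∀ b ∈ F, s b ⊆ N → (nodes s F (s b)).card ≤ 2 := by
    intro b hb _
    obtain ⟨p, hp, hp1⟩ := (hG s K cap hsys).2 F hF b hb
    have h1 : nodes s F (s b) ⊆ (s b).erase p := by
      intro x hx
      unfold nodes at hx
      rw [Finset.mem_filter] at hx
      rw [Finset.mem_erase]
      refine ⟨?_, hx.1⟩
      rintro rfl
      omega
    have h2 := Finset.card_le_card h1
    rw [Finset.card_erase_of_mem hp] at h2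
    have h3 := hsys.le3 b (hFK hb)
    omega
  have hnoEO : ∀ W ⊆ N, ¬ EO s F W := by
    intro W hW hEO
    obtain ⟨x, hx⟩ := hEO.1.1
    exact (memN x).1 (hW hx) W (mem_eos.2 hEO) hx
  obtain ⟨c0, hc0⟩ := hCol s F N (fun b hb => hsys.ne b (hFK hb)) hclosed hnodes hnoEO
  refine ⟨c0, ?_⟩
  intro x hx
  have hiff : ∀ b, x ∈ s b →
      (b ∈ F.filter (fun b => ∀ Q ∈ eos s F, Disjoint (s b) Q) ↔ b ∈ F) := by
    intro b hxb
    rw [Finset.mem_filter]
    constructor
    · exact fun h => h.1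
    · intro h
      refine ⟨h, ?_⟩
      intro Q hQ
      rw [Finset.disjoint_left]
      intro y hy hyQ
      exact hx Q hQ (htouch b h Q hQ y hy hyQ hxb)
  refine ⟨?_, deg_congr hiff⟩
  intro h4
  obtain ⟨κ, hκ⟩ := hc0 x ((memN x).2 hx) (hF.adm.2 x).1 h4
  refine ⟨κ, ?_⟩
  rw [← hκ]
  exact cdeg_congr hiff (fun _ _ _ => rfl) κ

/-- a block meeting a token in exactly one point is not in `F` -/
theorem notMem_of_one {V B : Type} [DecidableEq V] [DecidableEq B] {s : B → Finset V}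
    {F : Finset B} {Q : Finset V} {g : B} (hQ : EO s F Q) (h : (s g ∩ Q).card = 1) : g ∉ F := by
  intro hg
  rcases hQ.1.2.1 g hg with h1 | h1
  · have h2 := hQ.2.2.1 g hg h1
    rw [Finset.inter_eq_left.2 h1] at h
    have h3 : (nodes s F (s g)).card ≤ (s g).card := Finset.card_le_card (Finset.filter_subset _ _)
    omega
  · rw [Finset.disjoint_iff_inter_eq_empty.1 h1] at h
    simp at h

/-- certificates of the first two kinds give an own block -/
theorem own_of_cert {V B : Type} [Fintype V] [DecidableEq V] [Fintype B] [DecidableEq B]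
    (hCH : CompHStmt) {s : B → Finset V} {K : Finset B} {cap : ℕ}
    {F : Finset B} {Q : Finset V} (hsys : Sys s K cap) (hFK : F ⊆ K) (hQ : EO s F Q)
    (h : PCert s K F Q ∨ HCert s K cap F Q) :
    ∃ g ∈ K, g ∉ F ∧ (s g ∩ Q).Nonempty ∧ (∃ p, (cap = 3 → deg s F p ≠ 3) ∧ s g ⊆ insert p Q) ∧
      CanF s F Q g := by
  have hF3 : ∀ b ∈ F, (s b).Nonempty ∧ (s b).card ≤ 3 := fun b hb =>
    ⟨hsys.ne b (hFK hb), hsys.le3 b (hFK hb)⟩
  rcases h with ⟨f, hf, hfQ, g, hg, hgF, hgf⟩ | ⟨f, hf, hfQ, g, hg, p, hp, hgp, hp3⟩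
  · obtain ⟨y, hy⟩ := hsys.ne f (hFK hf)
    refine ⟨g, hg, hgF, ⟨y, Finset.mem_inter.2 ⟨hgf ▸ hy, hfQ hy⟩⟩, ⟨y, ?_, ?_⟩,
      hCH s F Q f g hF3 hQ hf hfQ hgF (Or.inl hgf)⟩
    · intro _
      rcases hQ.2.1 y (hfQ hy) with h | h | h <;> omega
    · rw [hgf]
      exact hfQ.trans (Finset.subset_insert _ _)
  · have hn2 := hQ.2.2.1 f hf hfQ
    have hne : (nodes s F (s f)).Nonempty := Finset.card_pos.1 (by omega)
    obtain ⟨y, hy⟩ := hne
    have hyf : y ∈ s f := (Finset.mem_filter.1 hy).1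
    have hyg : y ∈ s g := by rw [hgp]; exact Finset.mem_insert_of_mem hy
    have hgF : g ∉ F := by
      intro h
      rcases hQ.1.2.1 g h with h1 | h1
      · apply hp
        apply h1
        rw [hgp]
        exact Finset.mem_insert_self _ _
      · exact Finset.disjoint_left.1 h1 hyg (hfQ hyf)
    refine ⟨g, hg, hgF, ⟨y, Finset.mem_inter.2 ⟨hyg, hfQ hyf⟩⟩, ⟨p, hp3, ?_⟩,
      hCH s F Q f g hF3 hQ hf hfQ hgF (Or.inr ⟨p, hp, hgp⟩)⟩
    rw [hgp]
    exact Finset.insert_subset_insert _ ((Finset.filter_subset _ _).trans hfQ)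

theorem asm67 (hTok : TokStmt) (hCol : ColStmt) (hCT : CompTStmt) (hCH : CompHStmt)
    (hG : GoodExStmt) (hAbs : AbsStmt) : Asm67Stmt := by
  intro V B _ _ _ _ s K cap hsys hcap3 hopt hadm
  classical
  obtain ⟨F, hF, hcert⟩ := hTok s K cap hsys hopt hadm
  have hFK := hF.adm.1
  have hF3 : ∀ b ∈ F, (s b).Nonempty ∧ (s b).card ≤ 3 := fun b hb =>
    ⟨hsys.ne b (hFK hb), hsys.le3 b (hFK hb)⟩
  have hK5 : ∀ x, deg s K x ≤ 5 := by
    intro x
    rcases hsys.hcap with h | h
    · exact absurd h hcap3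
    · exact le_trans (h x) hsys.cap5
  obtain ⟨c0, hc0⟩ := outer hCol hG hsys hF
  rcases isEmpty_or_nonempty B with hB | hB
  · refine ⟨∅, Finset.empty_subset _, fun _ => true, ?_⟩
    intro x
    exfalso
    have h1 := (hF.adm.2 x).1
    have h2 : F = ∅ := by
      rw [Finset.eq_empty_iff_forall_notMem]
      exact fun b _ => hB.false b
    rw [h2] at h1
    simp [deg] at h1
  have hownex : ∀ Q : Finset V, ∃ g : B, Q ∈ eos s F → (g ∈ K ∧ g ∉ F ∧ (s g ∩ Q).Nonempty ∧
      (∃ p, s g ⊆ insert p Q) ∧ CanF s F Q g) := by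
    intro Q
    by_cases hQ : Q ∈ eos s F
    · have hQ' := mem_eos.1 hQ
      have h : PCert s K F Q ∨ HCert s K cap F Q := by
        rcases hcert Q hQ' with h | h | h
        · exact Or.inl h
        · exact Or.inr h
        · exact absurd h.1 hcap3
      obtain ⟨g, h1, h2, h3, ⟨p, -, h4⟩, h5⟩ := own_of_cert hCH hsys hFK hQ' h
      exact ⟨g, fun _ => ⟨h1, h2, h3, ⟨p, h4⟩, h5⟩⟩
    · exact ⟨hB.some, fun h => absurd h hQ⟩
  choose own hown using hownex
  obtain ⟨C, hCK, c, hc, -⟩ := hAbs s K (F.filter (fun b => ∀ Q ∈ eos s F, Disjoint (s b) Q)) c0 5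
    (eos s F) ∅ own (fun b hb => hsys.ne b hb) hK5 ((Finset.filter_subset _ _).trans hFK)
    (fun Q hQ Q' hQ' hne => comp_disjoint (mem_eos.1 hQ).1 (mem_eos.1 hQ').1 hne)
    (fun Q _ => Finset.disjoint_empty_right Q)
    (fun Q hQ b hb => (Finset.mem_filter.1 hb).2 Q hQ)
    (by
      intro x hx
      obtain ⟨h1, h2⟩ := hc0 x hx
      by_cases h4 : deg s F x ≤ 4
      · exact Or.inl (h1 h4)
      · right
        rw [h2]
        have h5 : deg s F x ≤ deg s K x := Finset.card_le_card (Finset.filter_subset_filter _ hFK)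
        have h6 := hK5 x
        omega)
    (by
      intro Q hQ
      obtain ⟨h1, -, h2, ⟨p, h3⟩, -⟩ := hown Q hQ
      refine ⟨h1, h2, ?_⟩
      have : s (own Q) \ (Q ∪ ∅) ⊆ {p} := by
        intro y hy
        rw [Finset.mem_sdiff, Finset.union_empty] at hy
        rw [Finset.mem_singleton]
        rcases Finset.mem_insert.1 (h3 hy.1) with h | h
        · exact h
        · exact absurd h hy.2
      exact le_trans (Finset.card_le_card this) (by simp))
    (fun Q _ Q' _ w hw => absurd hw (Finset.notMem_empty w))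
    (fun Q hQ => by
      obtain ⟨-, h1, -, -, h2⟩ := hown Q hQ
      exact canC_of_canF hFK h1 h2)
    (fun Q hQ g hg h => by
      have h1 := notMem_of_one (mem_eos.1 hQ) h
      exact canC_of_canF hFK h1 (hCT s F Q g hF3 (mem_eos.1 hQ) h1 h))
  exact ⟨C, hCK, c, fun x => hc x (Finset.notMem_empty x)⟩

end Pool.Agent.Helper29_CF.H29
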