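import Mathlib
import Pool.Agent.Helper29_CF.Stmt
import Pool.Agent.Helper29_CF.Asm

/-!
From the dual form to the full theorem.  The induction step on the maximum degree (`step`) is
due to helper90.
-/

namespace Pool.Agent.Helper29_CF

open Finset

/-- Adding one colour allows the maximum degree to grow by one. -/
theorem step {V : Type*} [Fintype V] [DecidableEq V] (E : Finset (Finset V)) (D : ℕ)
    (hdeg : ∀ v, (E.filter (fun e => v ∈ e)).card ≤ D + 1)
    (ih : ∀ E' : Finset (Finset V), E' ⊆ E → (∀ v, (E'.filter (fun e => v ∈ e)).card ≤ D) →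
      ∃ c : V → Fin D, IsConflictFree E' c) :
    ∃ c : V → Fin (D + 1), IsConflictFree E c := by
  -- a largest strongly independent set
  obtain ⟨S, hS, hSmax⟩ := Finset.exists_max_image
    ((univ : Finset V).powerset.filter (fun S => ∀ e ∈ E, (e ∩ S).card ≤ 1)) Finset.card
    ⟨∅, by simp⟩
  rw [Finset.mem_filter] at hS
  obtain ⟨-, hS⟩ := hS
  set E' : Finset (Finset V) := E.filter (fun e => e ∩ S = ∅) with hE'
  have hdeg' : ∀ v, (E'.filter (fun e => v ∈ e)).card ≤ D := by
    intro v
    by_cases hvS : v ∈ S
    · have : E'.filter (fun e => v ∈ e) = ∅ := by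
        rw [Finset.filter_eq_empty_iff]
        intro e he hve
        rw [hE', Finset.mem_filter] at he
        have : v ∈ e ∩ S := Finset.mem_inter.2 ⟨hve, hvS⟩
        rw [he.2] at this
        exact absurd this (Finset.notMem_empty v)
      rw [this]; simp
    · have hex : ∃ e ∈ E, v ∈ e ∧ (e ∩ S).Nonempty := by
        by_contra hcon
        push Not at hcon
        have hnew : insert v S ∈
            (univ : Finset V).powerset.filter (fun S => ∀ e ∈ E, (e ∩ S).card ≤ 1) := by
          rw [Finset.mem_filter]
          refine ⟨Finset.mem_powerset.2 (Finset.subset_univ _), ?_⟩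
          intro e he
          by_cases hve : v ∈ e
          · have h1 := hcon e he hve
            have h2 : e ∩ insert v S ⊆ {v} := by
              intro u hu
              rw [Finset.mem_inter, Finset.mem_insert] at hu
              rw [Finset.mem_singleton]
              rcases hu.2 with h | h
              · exact h
              · exfalso
                have : u ∈ e ∩ S := Finset.mem_inter.2 ⟨hu.1, h⟩
                rw [h1] at this
                exact absurd this (Finset.notMem_empty u)
            exact le_trans (Finset.card_le_card h2) (by simp)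
          · have h2 : e ∩ insert v S = e ∩ S := by
              ext u
              simp only [Finset.mem_inter, Finset.mem_insert]
              constructor
              · rintro ⟨h3, h4 | h4⟩
                · exact absurd (h4 ▸ h3) hve
                · exact ⟨h3, h4⟩
              · rintro ⟨h3, h4⟩
                exact ⟨h3, Or.inr h4⟩
            rw [h2]; exact hS e he
        have h3 := hSmax _ hnew
        rw [Finset.card_insert_of_notMem hvS] at h3
        omega
      obtain ⟨e, he, hve, heS⟩ := hex
      have h1 : E'.filter (fun e => v ∈ e) ⊆ (E.filter (fun e => v ∈ e)).erase e := by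
        intro f hf
        rw [Finset.mem_filter, hE', Finset.mem_filter] at hf
        rw [Finset.mem_erase, Finset.mem_filter]
        refine ⟨?_, hf.1.1, hf.2⟩
        rintro rfl
        rw [hf.1.2] at heS
        exact absurd heS Finset.not_nonempty_empty
      have h2 := Finset.card_le_card h1
      rw [Finset.card_erase_of_mem (Finset.mem_filter.2 ⟨he, hve⟩)] at h2
      have h3 := hdeg v
      omega
  obtain ⟨c, hc⟩ := ih E' (Finset.filter_subset _ _) hdeg'
  refine ⟨fun v => if v ∈ S then Fin.last D else (c v).castSucc, ?_⟩
  intro e he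
  by_cases heS : e ∩ S = ∅
  · obtain ⟨v, hve, hv⟩ := hc e (by rw [hE', Finset.mem_filter]; exact ⟨he, heS⟩)
    have hout : ∀ u ∈ e, u ∉ S := by
      intro u hu huS
      have : u ∈ e ∩ S := Finset.mem_inter.2 ⟨hu, huS⟩
      rw [heS] at this
      exact absurd this (Finset.notMem_empty u)
    refine ⟨v, hve, ?_⟩
    intro u hu huv heq
    simp only [if_neg (hout u hu), if_neg (hout v hve)] at heq
    exact hv u hu huv (Fin.castSucc_injective D heq)
  · obtain ⟨v, hv⟩ := Finset.nonempty_iff_ne_empty.2 heS
    rw [Finset.mem_inter] at hv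
    refine ⟨v, hv.1, ?_⟩
    intro u hu huv heq
    simp only [if_pos hv.2] at heq
    by_cases huS : u ∈ S
    · have h1 : ({u, v} : Finset V) ⊆ e ∩ S := by
        intro z hz
        rw [Finset.mem_insert, Finset.mem_singleton] at hz
        rcases hz with rfl | rfl
        · exact Finset.mem_inter.2 ⟨hu, huS⟩
        · exact Finset.mem_inter.2 hv
      have h2 := Finset.card_le_card h1
      rw [Finset.card_pair huv] at h2
      have h3 := hS e he
      omega
    · rw [if_neg huS] at heq
      have := congrArg Fin.val heq
      simp only [Fin.val_castSucc, Fin.val_last] at this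
      have h4 := (c u).isLt
      omega


/-- the case of maximum degree at most three, for an arbitrary vertex type -/
theorem base3 (hred : RedStmt) (r : ℕ) (hr : 1 ≤ r) (hd : DualStmt r) {V : Type*} [Fintype V]
    [DecidableEq V] (E : Finset (Finset V)) (hunif : ∀ e ∈ E, e.card = r)
    (hdeg : ∀ v : V, (E.filter (fun e => v ∈ e)).card ≤ 3) :
    ∃ c : V → Fin 3, IsConflictFree E c := by
  let φ : V ≃ Fin (Fintype.card V) := Fintype.equivFin V
  have hinj : Function.Injective (fun e : Finset V => e.map φ.toEmbedding) :=
    Finset.map_injective _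
  let E' : Finset (Finset (Fin (Fintype.card V))) := E.image (fun e => e.map φ.toEmbedding)
  have h1 : ∀ e ∈ E', e.card = r := by
    intro e he
    obtain ⟨e0, he0, rfl⟩ := Finset.mem_image.1 he
    rw [Finset.card_map]
    exact hunif e0 he0
  have h2 : ∀ v, (E'.filter (fun e => v ∈ e)).card ≤ 3 := by
    intro v
    have : E'.filter (fun e => v ∈ e) ⊆
        (E.filter (fun e => φ.symm v ∈ e)).image (fun e => e.map φ.toEmbedding) := by
      intro e he
      rw [Finset.mem_filter] at he
      obtain ⟨e0, he0, rfl⟩ := Finset.mem_image.1 he.1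
      refine Finset.mem_image.2 ⟨e0, Finset.mem_filter.2 ⟨he0, ?_⟩, rfl⟩
      obtain ⟨w, hw, hwv⟩ := Finset.mem_map.1 he.2
      have : φ.symm v = w := by
        rw [← hwv]
        simp
      rw [this]
      exact hw
    exact le_trans (le_trans (Finset.card_le_card this) Finset.card_image_le) (hdeg _)
  obtain ⟨c, hc⟩ := hred r hr hd _ E' h1 h2
  refine ⟨fun v => c (φ v), ?_⟩
  intro e he
  obtain ⟨v, hv, hv2⟩ := hc (e.map φ.toEmbedding) (Finset.mem_image.2 ⟨e, he, rfl⟩)
  obtain ⟨w, hw, rfl⟩ := Finset.mem_map.1 hv
  refine ⟨w, hw, ?_⟩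
  intro u hu huw
  apply hv2 (φ u) (Finset.mem_map.2 ⟨u, hu, rfl⟩)
  intro h
  exact huw (φ.injective h)

/-- the full theorem, from the case of maximum degree three -/
theorem final_of (hred : RedStmt) (hd : ∀ r, 5 ≤ r → DualStmt r) (r Δ : ℕ) (hr : 5 ≤ r)
    (hΔ : 3 ≤ Δ) {V : Type*} [Fintype V] [DecidableEq V] (E : Finset (Finset V))
    (hunif : ∀ e ∈ E, e.card = r) (hdeg : ∀ v : V, (E.filter (fun e => v ∈ e)).card ≤ Δ) :
    ∃ c : V → Fin Δ, IsConflictFree E c := by
  obtain ⟨m, rfl⟩ := Nat.exists_eq_add_of_le hΔ
  clear hΔ
  induction m generalizing E with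
  | zero => exact base3 hred r (by omega) (hd r hr) E hunif hdeg
  | succ m ihm =>
    exact step E (3 + m) hdeg
      (fun E' hE' hdeg' => ihm E' (fun e he => hunif e (hE' he)) hdeg')

end Pool.Agent.Helper29_CF
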