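import Mathlib
import Pool.Agent.Helper29_CF.Final
import Pool.Agent.Helper29_CF.Abs
import Pool.Agent.Helper29_CF.Asm67
import Pool.Agent.Helper12_CF.Tok
import Pool.Agent.Helper12_CF.Comph
import Pool.Agent.Helper12_CF.Compw
import Pool.Agent.Helper14_CF.Glue
import Pool.Agent.Helper14_CF.ThmA
import Pool.Agent.Helper21_CF.Opt5
import Pool.Agent.Helper21_CF.Main5
import Pool.Agent.Helper2_CF.Cnt8
import Pool.Agent.Helper2_CF.RndP
import Pool.Agent.Helper36_CF.Col
import Pool.Agent.Helper38_CF.LeafIso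
import Pool.Agent.Helper38_CF.Prob
import Pool.Agent.Helper38_CF.Step
import Pool.Agent.Helper44_CF.GoodEx
import Pool.Agent.Helper46_CF.Fin7
import Pool.Agent.Helper46_CF.Lab
import Pool.Agent.Helper65_CF.Opt6
import Pool.Agent.Helper69_CF.CompT
import Pool.Agent.Helper73_CF.RFin
import Pool.Agent.Helper73_CF.Red
import Pool.Agent.Helper92_CF.Half
import Pool.Agent.Helper8_CF.ExM
import Pool.Agent.Helper8_CF.Exch
import Pool.Agent.Helper8_CF.Swap
import Pool.Agent.Helper63_CF.Path
import Pool.Agent.Helper63_CF.Cnt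
import Pool.Agent.Helper46_CF.Sel
import Pool.Agent.Helper48_CF.NoEO
import Pool.Agent.Helper69_CF.Bridge

namespace Pool.Agent.Helper29_CF

open Finset

theorem top_of (hSwapM : ExMStmt) (hExB : ExBStmt) (hPath : PathStmt) (hCnt7 : Cnt7Stmt)
    (hSel : SelStmt) (hNoEO : NoEOStmt) : ∀ r, 5 ≤ r → DualStmt r := by
  have hExch : ExchStmt := exch_of hSwapM hExB
  have hGood : GoodExStmt := H44.goodex
  have hCol : ColStmt := H36.col
  have hTJ : TJStmt := H36.tj
  have hTok : TokStmt := H12.tok hPath hGood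
  have hCT : CompTStmt := H69.compT hCol hTJ hNoEO
  have hCH : CompHStmt := H12.comph hTJ
  have hCW : CompWStmt := H12.compw hCol H69.bridge hNoEO
  have hA67 : Asm67Stmt := H29.asm67 hTok hCol hCT hCH hGood H29.abs'
  have hO7 : Opt7Stmt := H65.opt7 hGood hExch
  have hO6 : Opt6Stmt := H65.opt6 hGood hExch
  have hO5 : Opt5Stmt := H21.opt5 hExch
  have hRF : RFinStmt := H73.rfin H38.step
  have hRnd : RndStmt := rnd_of hRF
  have hK : KStarStmt := kstar_of hA67 hO7
  have hT : ThmAStmt := H14.thma hK H38.leafIso H38.prob H14.glue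
  have hRP : RndPStmt := H2.rndp H38.step hRF hCnt7 H2.cnt8
  exact dual_of (H21.main5 hRnd hO5 hTok hGood hCol hCT hCH hCW hSel H29.abs')
    (main6_of hRnd hA67 hO6) (main7_of hRP hT H46.fin7)

/-- The dual statement holds for every `r ≥ 5`. -/
theorem dual_all : ∀ r, 5 ≤ r → DualStmt r :=
  top_of H8.exM H8.exB (H63.path H69.bridge H8.exch) H63.cnt7
    (H46.sel (H44.stage H92.half) H46.lab) (H48.noeo H69.bridge)

end Pool.Agent.Helper29_CF
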